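import Pool.Agent.Lib_helper83.LR.Pt

/-!
# Theorem BLM: mixtures of bilinear forms over public labels
-/

set_option autoImplicit false
set_option linter.unusedSectionVars false
set_option linter.unusedVariables false

open Finset

namespace Pool.Agent.LR2

section Em

variable {X Y : Type} [Fintype X] [Fintype Y]

theorem em_sum {ι : Type*} (s : Finset ι) (p : X → ℝ) (q : Y → ℝ) (c : ι → ℝ)
    (F : ι → X → Y → ℝ) :
    em p q (fun x y => ∑ i ∈ s, c i * F i x y) = ∑ i ∈ s, c i * em p q (F i) := by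
  classical
  induction s using Finset.induction_on with
  | empty => simp [em]
  | insert i s hi ih =>
    rw [Finset.sum_insert hi, ← ih, ← em_smul, ← em_add]
    congr 1
    funext x y
    rw [Finset.sum_insert hi]

theorem kW_smul {Ω : Type} [Fintype Ω] (w : Ω → ℝ) (u : Ω → X → ℝ) (v : Ω → Y → ℝ) (c : ℝ) (x : X)
    (y : Y) : kW w (fun o x => c * u o x) v x y = c * kW w u v x y := by
  unfold kW
  rw [Finset.mul_sum]
  apply Finset.sum_congr rfl
  intro o _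
  ring

theorem kW_abs {Ω : Type} [Fintype Ω] {w : Ω → ℝ} (hw : ∀ o, 0 ≤ w o) (hw1 : ∑ o, w o = 1)
    {u : Ω → X → ℝ} (hu : ∀ k x, |u k x| ≤ 1) {v : Ω → Y → ℝ} (hv : ∀ k y, |v k y| ≤ 1) (x : X)
    (y : Y) : |kW w u v x y| ≤ 1 := by
  unfold kW
  calc |∑ o, w o * (u o x * v o y)| ≤ ∑ o, |w o * (u o x * v o y)| :=
        Finset.abs_sum_le_sum_abs _ _
    _ ≤ ∑ o, w o := by
        apply Finset.sum_le_sum
        intro o _
        rw [abs_mul, abs_of_nonneg (hw o), abs_mul]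
        exact mul_le_of_le_one_right (hw o) (mul_le_one₀ (hu _ _) (abs_nonneg _) (hv _ _))
    _ = 1 := hw1

end Em

section BLM

variable {X Y Z Ω : Type} [Fintype X] [Fintype Y] [Fintype Z] [Fintype Ω] [Inhabited Ω]
  [Inhabited Z]

theorem sgu_abs {u : Ω → X → ℝ} (hu : ∀ k x, |u k x| ≤ 1) (b : Bool) (k : Ω) (x : X) :
    |sg b * u k x| ≤ 1 := by
  rw [abs_mul, sg_abs, one_mul]
  exact hu k x

theorem nsgu_abs {u : Ω → X → ℝ} (hu : ∀ k x, |u k x| ≤ 1) (b : Bool) (k : Ω) (x : X) :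
    |-(sg b) * u k x| ≤ 1 := by
  rw [abs_mul, abs_neg, sg_abs, one_mul]
  exact hu k x

/-- the tilt family of one signed label -/
noncomputable def labTF {w : Ω → ℝ} (hw : ∀ o, 0 ≤ w o) (hw1 : ∑ o, w o = 1) {u : Ω → X → ℝ}
    (hu : ∀ k x, |u k x| ≤ 1) {v : Ω → Y → ℝ} (hv : ∀ k y, |v k y| ≤ 1) (a : ℕ) (b : Bool) :
    TF X Y ((a + 2 * a ^ 2) / 2 : ℝ) (fun x y => gg a (sg b * (kW w u v x y / 4))) :=
  ((TF.form hw hw1 (u := fun o x => sg b * u o x) (sgu_abs hu b) hv (a + a ^ 2)).mul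
    (TF.form hw hw1 (u := fun o x => -(sg b) * u o x) (nsgu_abs hu b) hv (a ^ 2))).congr
    (by push_cast; apply le_of_eq; ring) (fun x y => by
      rw [kW_smul, kW_smul]
      unfold gg
      rw [pow_add, mul_assoc, ← mul_pow]
      congr 1
      · congr 1
        ring
      · congr 1
        ring)

/-- the revealed form of a label sequence -/
theorem rev_kernel (w : Ω → ℝ) (up : Z → Ω → X → ℝ) (vp : Z → Ω → Y → ℝ) {m : ℕ} (hm : 0 < m)
    {rt : ℝ} (hrt : 0 < rt) (hrt2 : rt ^ 2 = m) (Θ : ℝ) (c : Fin m → Z × Bool) (x : X) (y : Y) :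
    (rt * Θ) * kW (Ω := Fin m × Ω) (fun z => w z.2 / m)
      (fun z x => sg (c z.1).2 * up (c z.1).1 z.2 x) (fun z y => vp (c z.1).1 z.2 y) x y =
    ∑ j, sg (c j).2 * ((Θ * kW w (up (c j).1) (vp (c j).1) x y) / rt) := by
  unfold kW
  rw [Fintype.sum_prod_type, Finset.mul_sum]
  apply Finset.sum_congr rfl
  intro j _
  simp only [Finset.mul_sum, Finset.sum_div]
  apply Finset.sum_congr rfl
  intro o _
  have h1 : (m : ℝ) ≠ 0 := by exact_mod_cast hm.ne'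
  rw [← hrt2]
  field_simp

variable {μ : X → ℝ} {ν : Y → ℝ}

/-- the inequality for one label sequence -/
theorem blm_seq (hμ : IsPr μ) (hν : IsPr ν) {M : X → Y → ℝ}
    (hM : ∀ x y, |M x y| ≤ 1) {d : ℕ} (hd : 1 ≤ d) (hR : (Matrix.of M).rank ≤ 4 ^ d)
    {U A B : ℝ} (hU1 : |U| ≤ 1) (hA : 0 ≤ A) (hB : 0 ≤ B) (hU : UPR μ ν M U A B)
    {w : Ω → ℝ} (hw : ∀ o, 0 ≤ w o) (hw1 : ∑ o, w o = 1)
    {uw : Z → Ω → X → ℝ} (huw : ∀ z k x, |uw z k x| ≤ 1)
    {vw : Z → Ω → Y → ℝ} (hvw : ∀ z k y, |vw z k y| ≤ 1)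
    {up : Z → Ω → X → ℝ} (hup : ∀ z k x, |up z k x| ≤ 1)
    {vp : Z → Ω → Y → ℝ} (hvp : ∀ z k y, |vp z k y| ≤ 1)
    {a m K' : ℕ} (hm : 0 < m) (hK' : 0 < K') {rt : ℝ} (hrt : 0 < rt) (hrt2 : rt ^ 2 = m)
    {Θ : ℝ} (hΘ : 0 < Θ) {T : ℝ} (hT : 0 < T) (c : Fin m → Z × Bool) {ω : X → Y → ℝ}
    (hω : ∀ x y, ω x y = ∏ j, GG a (fun z => kW w (uw z) (vw z) x y / 4) (c j)) {W : X → Y → ℝ}
    (hW : ∀ x y, W x y = ∑ j, sg (c j).2 * ((Θ * kW w (up (c j).1) (vp (c j).1) x y) / rt)) :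
    |em μ ν (fun x y => ω x y * ((M x y - U) * W x y))| ≤
      32 * (d : ℝ) ^ 2 * (rt * Θ) / K' * em μ ν ω +
      3 * T * (2 * ((A + 2 * B) * em μ ν ω + B * ((m * (a + 2 * a ^ 2) + K' / 2) * em μ ν ω + 2)) +
        em μ ν (fun x y => ω x y * (U - M x y))) +
      6 * em μ ν (fun x y => ω x y * tfn T (W x y)) := by
  haveI : Inhabited (Fin m) := ⟨⟨0, hm⟩⟩
  have hm' : (0 : ℝ) < m := by exact_mod_cast hm
  let T₁ : TF X Y (m * ((a + 2 * a ^ 2) / 2)) ω :=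
    (TF.prod (fun i => labTF hw hw1 (huw (ext c i).1) (hvw (ext c i).1) a (ext c i).2) m).congr
      (by rw [Finset.sum_const, card_range, nsmul_eq_mul]) (fun x y => by
        rw [hω, Finset.prod_range]
        apply Finset.prod_congr rfl
        intro j _
        have h1 : ext c (j : ℕ) = c j := by
          unfold ext
          rw [dif_pos j.2]
        rw [h1]
        rfl)
  have h1 := blp_one hμ hν hM hd hR hU1 hA hB hU T₁
    (w := fun z : Fin m × Ω => w z.2 / m) (fun z => div_nonneg (hw _) hm'.le)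
    (by
      rw [Fintype.sum_prod_type]
      simp only [← Finset.sum_div, hw1]
      rw [Finset.sum_const, Finset.card_univ, Fintype.card_fin, nsmul_eq_mul]
      field_simp)
    (u := fun z x => sg (c z.1).2 * up (c z.1).1 z.2 x)
    (fun z x => sgu_abs (u := up (c z.1).1) (hup _) _ _ _)
    (v := fun z y => vp (c z.1).1 z.2 y) (fun z y => hvp _ _ _)
    (Θ := rt * Θ) (by positivity) hK' (tfn_tail hT)
  simp only [rev_kernel w up vp hm hrt hrt2 Θ c] at h1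
  simp only [← hW] at h1
  have e1 : (2 : ℝ) * (m * ((a + 2 * a ^ 2) / 2)) = m * (a + 2 * a ^ 2) := by ring
  rw [e1] at h1
  exact h1

end BLM

end Pool.Agent.LR2
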