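import Pool.Agent.Lib_helper83.LR.BLM

/-!
# Theorem BLM: the average over the labels
-/

set_option autoImplicit false
set_option linter.unusedSectionVars false
set_option linter.unusedVariables false

open Finset

namespace Pool.Agent.LR2

section Sc

theorem le_exp_div {l z : ℝ} (hl : 0 < l) (k : ℝ) (hk : 0 < k) :
    z ≤ k / l * Real.exp (l * z / k) := by
  have h1 := Real.add_one_le_exp (l * z / k)
  have h2 : l * z / k ≤ Real.exp (l * z / k) := by linarith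
  calc z = k / l * (l * z / k) := by field_simp
    _ ≤ _ := mul_le_mul_of_nonneg_left h2 (by positivity)

theorem exp_mean (p q : ℝ) : Real.exp ((p + q) / 2) ≤ (Real.exp p + Real.exp q) / 2 := by
  have h1 : Real.exp ((p + q) / 2) = Real.exp (p / 2) * Real.exp (q / 2) := by
    rw [← Real.exp_add]
    congr 1
    ring
  have h2 : Real.exp p = Real.exp (p / 2) ^ 2 := by
    rw [sq, ← Real.exp_add]
    congr 1
    ring
  have h3 : Real.exp q = Real.exp (q / 2) ^ 2 := by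
    rw [sq, ← Real.exp_add]
    congr 1
    ring
  rw [h1, h2, h3]
  nlinarith [sq_nonneg (Real.exp (p / 2) - Real.exp (q / 2))]

variable {l θ wb pb pe : ℝ}

theorem sc_a (hl : 0 < l) (hθ : 24 * θ ^ 2 ≤ l) (hw : 0 ≤ wb) :
    Real.exp (6 * (θ ^ 2 * wb)) ≤ Real.exp (l * wb / 4) := by
  apply Real.exp_le_exp.mpr
  nlinarith

theorem sc_a' (hl : 0 < l) (hθ : 24 * θ ^ 2 ≤ l) (hw : 0 ≤ wb) :
    Real.exp (6 * (θ ^ 2 * wb)) ≤ Real.exp (l * wb) := by
  refine (sc_a hl hθ hw).trans (Real.exp_le_exp.mpr ?_)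
  have : 0 ≤ l * wb := by positivity
  linarith

theorem sc_b (hl : 0 < l) (hθ : 24 * θ ^ 2 ≤ l) (hw : 0 ≤ wb) :
    (θ ^ 2 * wb) * Real.exp (6 * (θ ^ 2 * wb)) ≤ 2 * θ ^ 2 / l * Real.exp (l * wb) := by
  have h1 := le_exp_div (z := wb) hl 2 (by norm_num)
  have h2 := sc_a hl hθ hw
  have h3 : wb * Real.exp (6 * (θ ^ 2 * wb)) ≤ 2 / l * Real.exp (l * wb) := by
    calc wb * Real.exp (6 * (θ ^ 2 * wb)) ≤ (2 / l * Real.exp (l * wb / 2)) *
          Real.exp (l * wb / 4) := mul_le_mul h1 h2 (Real.exp_pos _).le (by positivity)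
      _ = 2 / l * Real.exp (l * wb / 2 + l * wb / 4) := by rw [Real.exp_add]; ring
      _ ≤ _ := by
          apply mul_le_mul_of_nonneg_left _ (by positivity)
          apply Real.exp_le_exp.mpr
          have : 0 ≤ l * wb := by positivity
          linarith
  calc _ = θ ^ 2 * (wb * Real.exp (6 * (θ ^ 2 * wb))) := by ring
    _ ≤ θ ^ 2 * (2 / l * Real.exp (l * wb)) := mul_le_mul_of_nonneg_left h3 (sq_nonneg _)
    _ = _ := by ring

theorem sc_pw (hl : 0 < l) (hθ : 24 * θ ^ 2 ≤ l) (hw : 0 ≤ wb) (hp : 0 ≤ pb) :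
    pb * wb * Real.exp (6 * (θ ^ 2 * wb)) ≤
      8 / l ^ 2 * (Real.exp (l * pb) + Real.exp (l * wb)) := by
  have h1 := le_exp_div (z := wb) hl 4 (by norm_num)
  have h1' := le_exp_div (z := pb) hl 4 (by norm_num)
  have h2 := sc_a hl hθ hw
  have hwb : 0 ≤ l * wb := by positivity
  have hpb : 0 ≤ l * pb := by positivity
  calc pb * wb * Real.exp (6 * (θ ^ 2 * wb)) ≤ ((4 / l * Real.exp (l * pb / 4)) *
        (4 / l * Real.exp (l * wb / 4))) * Real.exp (l * wb / 4) :=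
        mul_le_mul (mul_le_mul h1' h1 hw (by positivity)) h2 (Real.exp_pos _).le (by positivity)
    _ = 16 / l ^ 2 * Real.exp (l * pb / 4 + l * wb / 4 + l * wb / 4) := by
        rw [Real.exp_add, Real.exp_add]
        field_simp
        ring
    _ ≤ 16 / l ^ 2 * Real.exp ((l * pb + l * wb) / 2) := by
        apply mul_le_mul_of_nonneg_left _ (by positivity)
        apply Real.exp_le_exp.mpr
        linarith
    _ ≤ 16 / l ^ 2 * ((Real.exp (l * pb) + Real.exp (l * wb)) / 2) :=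
        mul_le_mul_of_nonneg_left (exp_mean _ _) (by positivity)
    _ = _ := by ring

theorem sc_ww (hl : 0 < l) (hθ : 24 * θ ^ 2 ≤ l) (hw : 0 ≤ wb) :
    wb * wb * Real.exp (6 * (θ ^ 2 * wb)) ≤ 16 / l ^ 2 * Real.exp (l * wb) := by
  have := sc_pw hl hθ hw hw
  calc _ ≤ _ := this
    _ = _ := by ring

theorem sc_c (hl : 0 < l) (hθ : 24 * θ ^ 2 ≤ l) (hw : 0 ≤ wb) (hp : 0 ≤ pb) (he : 0 ≤ pe)
    (hep : pe ≤ pb) :
    pe * Real.exp (6 * (θ ^ 2 * wb)) ≤
      pe + 48 * θ ^ 2 / l ^ 2 * (Real.exp (l * pb) + Real.exp (l * wb)) := by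
  have h0 : 0 ≤ 6 * (θ ^ 2 * wb) := by positivity
  have h1 := exp_sub_one_le h0
  have h2 := sc_pw hl hθ hw hp
  have h3 : pe * (Real.exp (6 * (θ ^ 2 * wb)) - 1) ≤
      6 * θ ^ 2 * (pb * wb * Real.exp (6 * (θ ^ 2 * wb))) := by
    calc pe * (Real.exp (6 * (θ ^ 2 * wb)) - 1) ≤
          pb * (6 * (θ ^ 2 * wb) * Real.exp (6 * (θ ^ 2 * wb))) := by
          apply mul_le_mul hep h1 _ hp
          have := Real.add_one_le_exp (6 * (θ ^ 2 * wb))
          linarith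
      _ = _ := by ring
  have h4 := mul_le_mul_of_nonneg_left h2 (by positivity : 0 ≤ 6 * θ ^ 2)
  have h5 : 6 * θ ^ 2 * (8 / l ^ 2 * (Real.exp (l * pb) + Real.exp (l * wb))) =
      48 * θ ^ 2 / l ^ 2 * (Real.exp (l * pb) + Real.exp (l * wb)) := by ring
  linarith

theorem sc_d (hl : 0 < l) (hθ0 : 0 < θ) (hθ : 24 * θ ^ 2 ≤ l) (hw : 0 ≤ wb) (hp : 0 ≤ pb) :
    Real.exp (6 * (θ ^ 2 * wb)) * (3 * (θ ^ 2 * wb) * (θ * pb + θ ^ 2 * wb / θ)) ≤
      24 * θ ^ 3 / l ^ 2 * (Real.exp (l * pb) + 3 * Real.exp (l * wb)) := by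
  have h1 := sc_pw hl hθ hw hp
  have h2 := sc_ww hl hθ hw
  have e1 : Real.exp (6 * (θ ^ 2 * wb)) * (3 * (θ ^ 2 * wb) * (θ * pb + θ ^ 2 * wb / θ)) =
      3 * θ ^ 3 * (pb * wb * Real.exp (6 * (θ ^ 2 * wb)) +
        wb * wb * Real.exp (6 * (θ ^ 2 * wb))) := by
    field_simp
  rw [e1]
  calc _ ≤ 3 * θ ^ 3 * (8 / l ^ 2 * (Real.exp (l * pb) + Real.exp (l * wb)) +
        16 / l ^ 2 * Real.exp (l * wb)) :=
        mul_le_mul_of_nonneg_left (add_le_add h1 h2) (by positivity)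
    _ = _ := by ring

theorem sc_e {lam : ℝ} (hl : 0 < l) (hθ : 24 * θ ^ 2 ≤ l) (hlam : 10 * lam ^ 2 ≤ l) (hw : 0 ≤ wb)
    (hp : 0 ≤ pb) : Real.exp (10 * (θ ^ 2 * wb) + 5 * (lam ^ 2 * pb)) ≤
      (Real.exp (l * pb) + Real.exp (l * wb)) / 2 := by
  refine le_trans (Real.exp_le_exp.mpr ?_) (exp_mean (l * pb) (l * wb))
  nlinarith

end Sc

section BLM2

variable {X Y Z Ω : Type} [Fintype X] [Fintype Y] [Fintype Z] [Fintype Ω] [Inhabited Ω]
  [Inhabited Z]

variable {μ : X → ℝ} {ν : Y → ℝ}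

/-- Theorem BLM, kernel form -/
theorem blm (hμ : IsPr μ) (hν : IsPr ν) {M : X → Y → ℝ}
    (hM : ∀ x y, |M x y| ≤ 1) {d : ℕ} (hd : 1 ≤ d) (hR : (Matrix.of M).rank ≤ 4 ^ d)
    {U A B : ℝ} (hU1 : |U| ≤ 1) (hA : 0 ≤ A) (hB : 0 ≤ B) (hU : UPR μ ν M U A B)
    {δ : ℝ} (hδ : U - em μ ν M ≤ δ)
    {γ : Z → ℝ} (hγ : ∀ z, 0 ≤ γ z) (hγ1 : ∑ z, γ z = 1)
    {w : Ω → ℝ} (hw : ∀ o, 0 ≤ w o) (hw1 : ∑ o, w o = 1)
    {uw : Z → Ω → X → ℝ} (huw : ∀ z k x, |uw z k x| ≤ 1)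
    {vw : Z → Ω → Y → ℝ} (hvw : ∀ z k y, |vw z k y| ≤ 1)
    {up : Z → Ω → X → ℝ} (hup : ∀ z k x, |up z k x| ≤ 1)
    {vp : Z → Ω → Y → ℝ} (hvp : ∀ z k y, |vp z k y| ≤ 1)
    {a m K' : ℕ} (ha : 0 < a) (hm : 0 < m) (hK' : 0 < K') {rt : ℝ} (hrt : 0 < rt)
    (hrt2 : rt ^ 2 = m) {Θ : ℝ} (hΘ : 0 < Θ) {T lam l ρ : ℝ} (hT : 0 < T) (hlam : 0 < lam)
    (hlam1 : lam ≤ 1) (hl : 0 < l) (hρ : 0 < ρ) {W P : Z → X → Y → ℝ}
    (hW : ∀ z x y, W z x y = Θ * kW w (uw z) (vw z) x y)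
    (hP : ∀ z x y, P z x y = Θ * kW w (up z) (vp z) x y)
    {θ : ℝ} (hθ : θ = a * rt / (4 * Θ)) (hθl : 24 * θ ^ 2 ≤ l) (hlaml : 10 * lam ^ 2 ≤ l)
    {C1 ext : ℝ}
    (h1 : em μ ν (fun x y => Real.exp (l * ∑ z, γ z * W z x y ^ 2)) ≤ C1)
    (h2 : em μ ν (fun x y => Real.exp (l * ∑ z, γ z * P z x y ^ 2)) ≤ C1)
    (h3 : em μ ν (fun x y => ∑ z, γ z * (if (m : ℝ) < P z x y ^ 2 then P z x y ^ 2 else 0)) ≤
      ext) :
    θ * |em μ ν (fun x y => (M x y - U) * ∑ z, γ z * (P z x y * W z x y))| ≤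
      32 * (d : ℝ) ^ 2 * (rt * Θ) / K' * C1 +
      3 * T * (2 * ((A + 2 * B) * C1 + B * ((m * (a + 2 * a ^ 2) + K' / 2) * C1 + 2)) +
        (δ + 24 * θ ^ 2 / l * C1)) +
      6 * (4 / lam * Real.exp (-(lam * T / 2)) * C1 + 8 / 3 * (ext + 96 * θ ^ 2 / l ^ 2 * C1)) +
      2 * ((6 + 3 * ρ) * (2 * θ ^ 2 / l * C1) + 3 / ρ * (ext + 96 * θ ^ 2 / l ^ 2 * C1) +
        96 * θ ^ 3 / l ^ 2 * C1) := by
  have hm' : (0 : ℝ) < m := by exact_mod_cast hm
  have ha' : (0 : ℝ) < a := by exact_mod_cast ha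
  have hθ0 : 0 < θ := by rw [hθ]; positivity
  -- abbreviations
  set s : X → Y → Z → ℝ := fun x y z => kW w (uw z) (vw z) x y / 4 with hs
  set wb : X → Y → ℝ := fun x y => ∑ z, γ z * W z x y ^ 2 with hwb
  set pb : X → Y → ℝ := fun x y => ∑ z, γ z * P z x y ^ 2 with hpb
  set pe : X → Y → ℝ := fun x y =>
    ∑ z, γ z * (if (m : ℝ) < P z x y ^ 2 then P z x y ^ 2 else 0) with hpe
  have hs1 : ∀ x y z, |s x y z| ≤ 1 / 4 := by
    intro x y z
    simp only [hs]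
    rw [abs_div, abs_of_pos (by norm_num : (0 : ℝ) < 4)]
    have := kW_abs hw hw1 (huw z) (hvw z) x y
    linarith
  have has : ∀ x y z, rt * ((a : ℝ) * s x y z) = θ * W z x y := by
    intro x y z
    simp only [hs]
    rw [hW, hθ]
    field_simp
  have hD : ∀ x y, PtD γ a m (s x y) (fun z => P z x y) rt (θ ^ 2 * wb x y) (pb x y) (pe x y) := by
    intro x y
    refine ⟨hγ, hγ1, hs1 x y, hm, hrt, hrt2, ?_, rfl, rfl⟩
    simp only [hwb]
    rw [← hrt2, Finset.mul_sum, Finset.mul_sum]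
    apply Finset.sum_congr rfl
    intro z _
    have := has x y z
    calc θ ^ 2 * (γ z * W z x y ^ 2) = γ z * (θ * W z x y) ^ 2 := by ring
      _ = γ z * (rt * (a * s x y z)) ^ 2 := by rw [this]
      _ = _ := by ring
  have hwb0 : ∀ x y, 0 ≤ wb x y := fun x y =>
    Finset.sum_nonneg fun z _ => mul_nonneg (hγ z) (sq_nonneg _)
  have hpb0 : ∀ x y, 0 ≤ pb x y := fun x y => (hD x y).pb0
  have hpe0 : ∀ x y, 0 ≤ pe x y := fun x y => (hD x y).pe0
  have hpep : ∀ x y, pe x y ≤ pb x y := fun x y => (hD x y).pe_le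
  -- the weights and forms of the label sequences
  set Γ : (Fin m → Z × Bool) → ℝ := fun c => ∏ j, g2 γ (c j) with hΓ
  set ω : (Fin m → Z × Bool) → X → Y → ℝ := fun c x y => ∏ j, GG a (s x y) (c j) with hω
  set V : (Fin m → Z × Bool) → X → Y → ℝ := fun c x y => ∑ j, sg (c j).2 * (P (c j).1 x y / rt)
    with hV
  have hΓ0 : ∀ c, 0 ≤ Γ c := fun c => Finset.prod_nonneg fun j _ => g2_nonneg hγ _
  have hΓ1 : ∑ c, Γ c = 1 := lab_one (g2_sum hγ1) m
  have hseq : ∀ c, |em μ ν (fun x y => ω c x y * ((M x y - U) * V c x y))| ≤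
      32 * (d : ℝ) ^ 2 * (rt * Θ) / K' * em μ ν (ω c) +
      3 * T * (2 * ((A + 2 * B) * em μ ν (ω c) +
        B * ((m * (a + 2 * a ^ 2) + K' / 2) * em μ ν (ω c) + 2)) +
        em μ ν (fun x y => ω c x y * (U - M x y))) +
      6 * em μ ν (fun x y => ω c x y * tfn T (V c x y)) := by
    intro c
    exact blm_seq hμ hν hM hd hR hU1 hA hB hU hw hw1 huw hvw hup hvp hm hK' hrt hrt2 hΘ hT c
      (fun x y => rfl) (fun x y => by simp only [hV, hP])
  -- averages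
  set R0 : ℝ := em μ ν (fun x y => ∑ c, Γ c * ω c x y) with hR0
  have a1 : ∑ c, Γ c * em μ ν (ω c) = R0 := by rw [hR0, em_sum]
  have a2 : ∑ c, Γ c * em μ ν (fun x y => ω c x y * (U - M x y)) =
      em μ ν (fun x y => ∑ c, Γ c * (ω c x y * (U - M x y))) := by rw [em_sum]
  have a3 : ∑ c, Γ c * em μ ν (fun x y => ω c x y * tfn T (V c x y)) =
      em μ ν (fun x y => ∑ c, Γ c * (ω c x y * tfn T (V c x y))) := by rw [em_sum]
  have a4 : ∑ c, Γ c * em μ ν (fun x y => ω c x y * ((M x y - U) * V c x y)) =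
      em μ ν (fun x y => ∑ c, Γ c * (ω c x y * ((M x y - U) * V c x y))) := by rw [em_sum]
  have havg : |em μ ν (fun x y => ∑ c, Γ c * (ω c x y * ((M x y - U) * V c x y)))| ≤
      32 * (d : ℝ) ^ 2 * (rt * Θ) / K' * R0 +
      3 * T * (2 * ((A + 2 * B) * R0 + B * ((m * (a + 2 * a ^ 2) + K' / 2) * R0 + 2)) +
        em μ ν (fun x y => ∑ c, Γ c * (ω c x y * (U - M x y)))) +
      6 * em μ ν (fun x y => ∑ c, Γ c * (ω c x y * tfn T (V c x y))) := by
    rw [← a4]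
    calc _ ≤ ∑ c, |Γ c * em μ ν (fun x y => ω c x y * ((M x y - U) * V c x y))| :=
          Finset.abs_sum_le_sum_abs _ _
      _ ≤ ∑ c, Γ c * (32 * (d : ℝ) ^ 2 * (rt * Θ) / K' * em μ ν (ω c) +
          3 * T * (2 * ((A + 2 * B) * em μ ν (ω c) +
            B * ((m * (a + 2 * a ^ 2) + K' / 2) * em μ ν (ω c) + 2)) +
            em μ ν (fun x y => ω c x y * (U - M x y))) +
          6 * em μ ν (fun x y => ω c x y * tfn T (V c x y))) := by
          apply Finset.sum_le_sum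
          intro c _
          rw [abs_mul, abs_of_nonneg (hΓ0 c)]
          exact mul_le_mul_of_nonneg_left (hseq c) (hΓ0 c)
      _ = 32 * (d : ℝ) ^ 2 * (rt * Θ) / K' * ∑ c, Γ c * em μ ν (ω c) +
          3 * T * (2 * ((A + 2 * B) * ∑ c, Γ c * em μ ν (ω c) +
            B * ((m * (a + 2 * a ^ 2) + K' / 2) * ∑ c, Γ c * em μ ν (ω c) + 2 * ∑ c, Γ c)) +
            ∑ c, Γ c * em μ ν (fun x y => ω c x y * (U - M x y))) +
          6 * ∑ c, Γ c * em μ ν (fun x y => ω c x y * tfn T (V c x y)) := by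
          simp only [Finset.mul_sum, mul_add, ← Finset.sum_add_distrib]
          apply Finset.sum_congr rfl
          intro c _
          ring
      _ = _ := by rw [a1, a2, a3, hΓ1, mul_one]
  -- pointwise factorisations
  have f1 : ∀ x y, ∑ c, Γ c * ω c x y = h0 γ a (s x y) ^ m := fun x y =>
    lab_prod (g2 γ) (GG a (s x y)) m
  have b1 : R0 ≤ C1 := by
    refine le_trans (em_mono hμ hν fun x y => ?_) h1
    rw [f1]
    refine ((le_abs_self _).trans ((hD x y).pow (le_refl m)).2).trans ?_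
    exact sc_a' hl hθl (hwb0 x y)
  have hUM : ∀ x y, |U - M x y| ≤ 2 := by
    intro x y
    calc |U - M x y| ≤ |U| + |M x y| := abs_sub _ _
      _ ≤ 2 := by linarith [hM x y]
  have b2 : em μ ν (fun x y => ∑ c, Γ c * (ω c x y * (U - M x y))) ≤ δ + 24 * θ ^ 2 / l * C1 := by
    have e1 : (fun x y => ∑ c, Γ c * (ω c x y * (U - M x y))) = fun x y =>
        (U + (-1) * M x y) + (h0 γ a (s x y) ^ m - 1) * (U - M x y) := by
      funext x y
      have e2 : ∑ c, Γ c * (ω c x y * (U - M x y)) = (∑ c, Γ c * ω c x y) * (U - M x y) := by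
        rw [Finset.sum_mul]
        apply Finset.sum_congr rfl
        intro c _
        ring
      rw [e2, f1]
      ring
    rw [e1, em_add, em_add, em_smul, em_const hμ hν]
    have e3 : em μ ν (fun x y => (h0 γ a (s x y) ^ m - 1) * (U - M x y)) ≤
        24 * θ ^ 2 / l * C1 := by
      have e4 : em μ ν (fun x y => (24 * θ ^ 2 / l) * Real.exp (l * wb x y)) ≤
          24 * θ ^ 2 / l * C1 := by
        rw [em_smul]
        exact mul_le_mul_of_nonneg_left h1 (by positivity)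
      refine le_trans (em_mono hμ hν fun x y => ?_) e4
      obtain ⟨q1, _⟩ := (hD x y).pow (le_refl m)
      have q2 := sc_b (θ := θ) hl hθl (hwb0 x y)
      calc _ ≤ |(h0 γ a (s x y) ^ m - 1) * (U - M x y)| := le_abs_self _
        _ = |h0 γ a (s x y) ^ m - 1| * |U - M x y| := abs_mul _ _
        _ ≤ (6 * (θ ^ 2 * wb x y) * Real.exp (6 * (θ ^ 2 * wb x y))) * 2 := by
            apply mul_le_mul q1 (hUM x y) (abs_nonneg _)
            have := hwb0 x y
            positivity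
        _ = 12 * ((θ ^ 2 * wb x y) * Real.exp (6 * (θ ^ 2 * wb x y))) := by ring
        _ ≤ 12 * (2 * θ ^ 2 / l * Real.exp (l * wb x y)) :=
            mul_le_mul_of_nonneg_left q2 (by norm_num)
        _ = _ := by ring
    linarith
  have hsum : em μ ν (fun x y => Real.exp (l * pb x y) + Real.exp (l * wb x y)) ≤ 2 * C1 := by
    rw [em_add]
    linarith
  have hpeE : em μ ν (fun x y => pe x y * Real.exp (6 * (θ ^ 2 * wb x y))) ≤
      ext + 96 * θ ^ 2 / l ^ 2 * C1 := by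
    have e1 : em μ ν (fun x y => pe x y + (48 * θ ^ 2 / l ^ 2) *
        (Real.exp (l * pb x y) + Real.exp (l * wb x y))) ≤ ext + 96 * θ ^ 2 / l ^ 2 * C1 := by
      rw [em_add, em_smul]
      have := mul_le_mul_of_nonneg_left hsum (by positivity : 0 ≤ 48 * θ ^ 2 / l ^ 2)
      have e2 : 48 * θ ^ 2 / l ^ 2 * (2 * C1) = 96 * θ ^ 2 / l ^ 2 * C1 := by ring
      linarith
    refine le_trans (em_mono hμ hν fun x y => ?_) e1
    exact sc_c hl hθl (hwb0 x y) (hpb0 x y) (hpe0 x y) (hpep x y)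
  have b3 : em μ ν (fun x y => ∑ c, Γ c * (ω c x y * tfn T (V c x y))) ≤
      4 / lam * Real.exp (-(lam * T / 2)) * C1 + 8 / 3 * (ext + 96 * θ ^ 2 / l ^ 2 * C1) := by
    have e1 : em μ ν (fun x y => (4 / lam * Real.exp (-(lam * T / 2)) / 2) *
        (Real.exp (l * pb x y) + Real.exp (l * wb x y)) +
        (8 / 3) * (pe x y * Real.exp (6 * (θ ^ 2 * wb x y)))) ≤
        4 / lam * Real.exp (-(lam * T / 2)) * C1 + 8 / 3 * (ext + 96 * θ ^ 2 / l ^ 2 * C1) := by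
      rw [em_add, em_smul, em_smul]
      have q1 := mul_le_mul_of_nonneg_left hsum
        (by positivity : 0 ≤ 4 / lam * Real.exp (-(lam * T / 2)) / 2)
      have q2 := mul_le_mul_of_nonneg_left hpeE (by norm_num : (0 : ℝ) ≤ 8 / 3)
      have q3 : 4 / lam * Real.exp (-(lam * T / 2)) / 2 * (2 * C1) =
          4 / lam * Real.exp (-(lam * T / 2)) * C1 := by ring
      linarith
    refine le_trans (em_mono hμ hν fun x y => ?_) e1
    have q1 := (hD x y).tail (T := T) hlam hlam1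
    have q2 := sc_e (θ := θ) hl hθl hlaml (hwb0 x y) (hpb0 x y)
    have q3 := mul_le_mul_of_nonneg_left q2
      (by positivity : 0 ≤ 4 / lam * Real.exp (-(lam * T / 2)))
    calc _ ≤ _ := q1
      _ ≤ 4 / lam * Real.exp (-(lam * T / 2)) *
          ((Real.exp (l * pb x y) + Real.exp (l * wb x y)) / 2) +
          8 / 3 * pe x y * Real.exp (6 * (θ ^ 2 * wb x y)) := by linarith
      _ = _ := by ring
  -- the signal
  set Ψ : X → Y → ℝ := fun x y => ∑ z, γ z * (P z x y * W z x y) with hΨ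
  set Er : X → Y → ℝ := fun x y => Real.exp (6 * (θ ^ 2 * wb x y)) *
      (6 * (θ ^ 2 * wb x y) + 3 * (pe x y / ρ + ρ * (θ ^ 2 * wb x y))) +
      Real.exp (6 * (θ ^ 2 * wb x y)) * (3 * (θ ^ 2 * wb x y) *
        (θ * pb x y + θ ^ 2 * wb x y / θ)) with hEr
  have g1 : ∀ x y, |∑ c, Γ c * (ω c x y * V c x y) - θ * Ψ x y| ≤ Er x y := by
    intro x y
    have q1 := (hD x y).signal hρ hθ0
    have q2 : rt * ∑ z, γ z * (P z x y * (a * s x y z)) = θ * Ψ x y := by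
      simp only [hΨ]
      rw [Finset.mul_sum, Finset.mul_sum]
      apply Finset.sum_congr rfl
      intro z _
      calc rt * (γ z * (P z x y * (a * s x y z))) = γ z * (P z x y * (rt * (a * s x y z))) := by
            ring
        _ = _ := by rw [has]; ring
    rw [q2] at q1
    exact q1
  have g2' : em μ ν Er ≤ (6 + 3 * ρ) * (2 * θ ^ 2 / l * C1) +
      3 / ρ * (ext + 96 * θ ^ 2 / l ^ 2 * C1) + 96 * θ ^ 3 / l ^ 2 * C1 := by
    have e1 : em μ ν (fun x y => ((6 + 3 * ρ) * (2 * θ ^ 2 / l)) * Real.exp (l * wb x y) +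
        ((3 / ρ) * (pe x y * Real.exp (6 * (θ ^ 2 * wb x y))) +
        (24 * θ ^ 3 / l ^ 2) * (Real.exp (l * pb x y) + 3 * Real.exp (l * wb x y)))) ≤
        (6 + 3 * ρ) * (2 * θ ^ 2 / l * C1) + 3 / ρ * (ext + 96 * θ ^ 2 / l ^ 2 * C1) +
        96 * θ ^ 3 / l ^ 2 * C1 := by
      rw [em_add, em_add, em_smul, em_smul, em_smul, em_add, em_smul]
      have q1 := mul_le_mul_of_nonneg_left h1
        (by positivity : 0 ≤ (6 + 3 * ρ) * (2 * θ ^ 2 / l))
      have q2 := mul_le_mul_of_nonneg_left hpeE (by positivity : 0 ≤ 3 / ρ)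
      have q3 : em μ ν (fun x y => Real.exp (l * pb x y)) +
          3 * em μ ν (fun x y => Real.exp (l * wb x y)) ≤ 4 * C1 := by linarith
      have q4 := mul_le_mul_of_nonneg_left q3 (by positivity : 0 ≤ 24 * θ ^ 3 / l ^ 2)
      have q5 : 24 * θ ^ 3 / l ^ 2 * (4 * C1) = 96 * θ ^ 3 / l ^ 2 * C1 := by ring
      have q6 : (6 + 3 * ρ) * (2 * θ ^ 2 / l) * C1 = (6 + 3 * ρ) * (2 * θ ^ 2 / l * C1) := by ring
      linarith
    refine le_trans (em_mono hμ hν fun x y => ?_) e1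
    have q1 := sc_b (θ := θ) hl hθl (hwb0 x y)
    have q2 := sc_d (θ := θ) hl hθ0 hθl (hwb0 x y) (hpb0 x y)
    have q3 := mul_le_mul_of_nonneg_left q1 (by positivity : 0 ≤ 6 + 3 * ρ)
    simp only [hEr]
    have e2 : Real.exp (6 * (θ ^ 2 * wb x y)) *
        (6 * (θ ^ 2 * wb x y) + 3 * (pe x y / ρ + ρ * (θ ^ 2 * wb x y))) =
        (6 + 3 * ρ) * ((θ ^ 2 * wb x y) * Real.exp (6 * (θ ^ 2 * wb x y))) +
        (3 / ρ) * (pe x y * Real.exp (6 * (θ ^ 2 * wb x y))) := by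
      field_simp
      ring
    rw [e2]
    have e3 : (6 + 3 * ρ) * (2 * θ ^ 2 / l * Real.exp (l * wb x y)) =
        (6 + 3 * ρ) * (2 * θ ^ 2 / l) * Real.exp (l * wb x y) := by ring
    linarith
  have g3 : θ * |em μ ν (fun x y => (M x y - U) * Ψ x y)| ≤
      |em μ ν (fun x y => ∑ c, Γ c * (ω c x y * ((M x y - U) * V c x y)))| + 2 * em μ ν Er := by
    have e1 : θ * em μ ν (fun x y => (M x y - U) * Ψ x y) =
        em μ ν (fun x y => ∑ c, Γ c * (ω c x y * ((M x y - U) * V c x y))) -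
        em μ ν (fun x y => (∑ c, Γ c * (ω c x y * V c x y) - θ * Ψ x y) * (M x y - U)) := by
      have e2 : em μ ν (fun x y => ∑ c, Γ c * (ω c x y * ((M x y - U) * V c x y))) =
          em μ ν (fun x y => (∑ c, Γ c * (ω c x y * V c x y) - θ * Ψ x y) * (M x y - U)) +
          θ * em μ ν (fun x y => (M x y - U) * Ψ x y) := by
        rw [← em_smul, ← em_add]
        congr 1
        funext x y
        have e3 : ∑ c, Γ c * (ω c x y * ((M x y - U) * V c x y)) =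
            (∑ c, Γ c * (ω c x y * V c x y)) * (M x y - U) := by
          rw [Finset.sum_mul]
          apply Finset.sum_congr rfl
          intro c _
          ring
        rw [e3]
        ring
      rw [e2]
      ring
    have e4 : |em μ ν (fun x y => (∑ c, Γ c * (ω c x y * V c x y) - θ * Ψ x y) *
        (M x y - U))| ≤ 2 * em μ ν Er := by
      rw [← em_smul]
      apply em_abs_le hμ hν
      intro x y
      rw [abs_mul]
      have q1 : |M x y - U| ≤ 2 := by rw [abs_sub_comm]; exact hUM x y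
      calc _ ≤ Er x y * 2 := mul_le_mul (g1 x y) q1 (abs_nonneg _)
            ((abs_nonneg _).trans (g1 x y))
        _ = _ := by ring
    have e5 : θ * |em μ ν (fun x y => (M x y - U) * Ψ x y)| =
        |θ * em μ ν (fun x y => (M x y - U) * Ψ x y)| := by
      rw [abs_mul, abs_of_pos hθ0]
    rw [e5, e1]
    refine (abs_sub _ _).trans ?_
    linarith
  -- assembly
  have hC1 : 0 ≤ C1 := le_trans (by
    have := em_mono hμ hν (M := fun _ _ => 0)
      (N := fun x y => Real.exp (l * ∑ z, γ z * W z x y ^ 2)) (fun x y => (Real.exp_pos _).le)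
    simpa [em] using this) h1
  have k1 : 32 * (d : ℝ) ^ 2 * (rt * Θ) / K' * R0 ≤ 32 * (d : ℝ) ^ 2 * (rt * Θ) / K' * C1 :=
    mul_le_mul_of_nonneg_left b1 (by positivity)
  have k2 : 3 * T * (2 * ((A + 2 * B) * R0 + B * ((m * (a + 2 * a ^ 2) + K' / 2) * R0 + 2)) +
        em μ ν (fun x y => ∑ c, Γ c * (ω c x y * (U - M x y)))) ≤
      3 * T * (2 * ((A + 2 * B) * C1 + B * ((m * (a + 2 * a ^ 2) + K' / 2) * C1 + 2)) +
        (δ + 24 * θ ^ 2 / l * C1)) := by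
    apply mul_le_mul_of_nonneg_left _ (by positivity)
    have q1 : (A + 2 * B) * R0 ≤ (A + 2 * B) * C1 :=
      mul_le_mul_of_nonneg_left b1 (by positivity)
    have q2 : ((m : ℝ) * (a + 2 * a ^ 2) + K' / 2) * R0 ≤ (m * (a + 2 * a ^ 2) + K' / 2) * C1 :=
      mul_le_mul_of_nonneg_left b1 (by positivity)
    have q3 := mul_le_mul_of_nonneg_left q2 hB
    linarith
  have k3 := mul_le_mul_of_nonneg_left b3 (by norm_num : (0 : ℝ) ≤ 6)
  have k4 := mul_le_mul_of_nonneg_left g2' (by norm_num : (0 : ℝ) ≤ 2)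
  linarith

end BLM2

end Pool.Agent.LR2
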