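import Pool.Agent.Lib_helper83.LR.BLM2
import Pool.Agent.Lib_helper59.LR2.SignLift

/-!
# Theorem BLM: vector form
-/

set_option autoImplicit false
set_option linter.unusedSectionVars false
set_option linter.unusedVariables false

open Finset

namespace Pool.Agent.LR2

theorem blv_s1 {q s : ℝ} (h : s ≤ 1) : q ^ 2 * s ≤ q ^ 2 := by
  nlinarith [sq_nonneg q]

theorem blv_s2 {ε s t : ℝ} (hε1 : ε ≤ 1 / 4) (h : |s - t| ≤ ε) : t ^ 2 ≤ 2 * s ^ 2 + 1 / 8 := by
  have h1 : (s - t) ^ 2 ≤ 1 / 16 := by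
    rw [← sq_abs]
    nlinarith [abs_nonneg (s - t)]
  nlinarith [sq_nonneg (s + (s - t))]

theorem blv_s3 {l S F : ℝ} (hl : 0 < l) (hl1 : l ≤ 1) (h : S ≤ 2 * F + 1 / 8) :
    l * S ≤ 1 / 8 + 2 * l * F := by
  nlinarith

theorem blv_s4 {m s t : ℝ} (hm : 1 ≤ m) (h7 : |s - t| ≤ 1 / 4) :
    (if m < t ^ 2 then t ^ 2 else 0) ≤ 2 * (if m / 4 < s ^ 2 then s ^ 2 else 0) := by
  have h8 : |t| ≤ |s| + 1 / 4 := by
    have h9 : |t| - |s| ≤ |t - s| := abs_sub_abs_le_abs_sub _ _
    rw [abs_sub_comm] at h9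
    linarith
  by_cases hc : m < t ^ 2
  · rw [if_pos hc]
    have h9 : 1 ≤ |t| := by
      rw [← sq_abs] at hc
      nlinarith [abs_nonneg t]
    have h10 : 3 / 4 * |t| ≤ |s| := by linarith
    have h11 : 9 / 16 * t ^ 2 ≤ s ^ 2 := by
      rw [← sq_abs t, ← sq_abs s]
      nlinarith [abs_nonneg t, abs_nonneg s]
    have h12 : m / 4 < s ^ 2 := by linarith
    rw [if_pos h12]
    nlinarith [sq_nonneg t]
  · rw [if_neg hc]
    split_ifs
    · positivity
    · norm_num

theorem blv_s5 {ε Q : ℝ} (hε0 : 0 ≤ ε) (hε1 : ε ≤ 1 / 4) (hQ : 1 ≤ Q) :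
    Q * ε + ε * (Q + ε) ≤ 3 * ε * Q := by
  nlinarith

section V

variable {X Y Z : Type} [Fintype X] [Fintype Y] [Fintype Z] [Inhabited Z]

variable {μ : X → ℝ} {ν : Y → ℝ}

/-- Theorem BLM, vector form -/
theorem blm_vec (hμ : IsPr μ) (hν : IsPr ν) {M : X → Y → ℝ}
    (hM : ∀ x y, |M x y| ≤ 1) {d : ℕ} (hd : 1 ≤ d) (hR : (Matrix.of M).rank ≤ 4 ^ d)
    {U A B : ℝ} (hU1 : |U| ≤ 1) (hA : 0 ≤ A) (hB : 0 ≤ B) (hU : UPR μ ν M U A B)
    {δ : ℝ} (hδ : U - em μ ν M ≤ δ)
    {γ : Z → ℝ} (hγ : ∀ z, 0 ≤ γ z) (hγ1 : ∑ z, γ z = 1) {n : ℕ}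
    {fp fw : Z → X → Fin n → ℝ} {e : Z → Y → Fin n → ℝ}
    (hfp : ∀ z x, ∑ i, fp z x i ^ 2 ≤ 1) (hfw : ∀ z x, ∑ i, fw z x i ^ 2 ≤ 1)
    {q : ℝ} (hq : 1 ≤ q) (he : ∀ z y, ∑ i, e z y i ^ 2 ≤ q ^ 4)
    {L : ℝ} (hL : 0 < L) {ε : ℝ} (hε : ε = 8 * q ^ 2 * Real.exp (2 + 2 * L - L ^ 2 / 2))
    (hε1 : ε ≤ 1 / 4)
    {a m K' : ℕ} (ha : 0 < a) (hm : 0 < m) (hK' : 0 < K') {rt : ℝ} (hrt : 0 < rt)
    (hrt2 : rt ^ 2 = m) {Θ : ℝ} (hΘ : Θ = (L * q) ^ 2) {T lam l ρ : ℝ} (hT : 0 < T)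
    (hlam : 0 < lam) (hlam1 : lam ≤ 1) (hl : 0 < l) (hl1 : l ≤ 1) (hρ : 0 < ρ)
    {W P : Z → X → Y → ℝ}
    (hW : ∀ z x y, W z x y = ∑ i, fw z x i * e z y i)
    (hP : ∀ z x y, P z x y = ∑ i, fp z x i * e z y i)
    {θ : ℝ} (hθ : θ = a * rt / (4 * Θ)) (hθl : 24 * θ ^ 2 ≤ l) (hlaml : 10 * lam ^ 2 ≤ l)
    {C0 ext : ℝ}
    (h1 : em μ ν (fun x y => Real.exp (2 * l * ∑ z, γ z * W z x y ^ 2)) ≤ C0)
    (h2 : em μ ν (fun x y => Real.exp (2 * l * ∑ z, γ z * P z x y ^ 2)) ≤ C0)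
    (h3 : em μ ν (fun x y => ∑ z, γ z * (if (m : ℝ) / 4 < P z x y ^ 2 then P z x y ^ 2 else 0)) ≤
      ext) :
    θ * |em μ ν (fun x y => (M x y - U) * ∑ z, γ z * (P z x y * W z x y))| ≤
      32 * (d : ℝ) ^ 2 * (rt * Θ) / K' * (2 * C0) +
      3 * T * (2 * ((A + 2 * B) * (2 * C0) +
        B * ((m * (a + 2 * a ^ 2) + K' / 2) * (2 * C0) + 2)) + (δ + 24 * θ ^ 2 / l * (2 * C0))) +
      6 * (4 / lam * Real.exp (-(lam * T / 2)) * (2 * C0) +
        8 / 3 * (2 * ext + 96 * θ ^ 2 / l ^ 2 * (2 * C0))) +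
      2 * ((6 + 3 * ρ) * (2 * θ ^ 2 / l * (2 * C0)) +
        3 / ρ * (2 * ext + 96 * θ ^ 2 / l ^ 2 * (2 * C0)) +
        96 * θ ^ 3 / l ^ 2 * (2 * C0)) + θ * (6 * ε * q ^ 2) := by
  have hq0 : 0 < q := by linarith
  have hm' : (1 : ℝ) ≤ m := by exact_mod_cast hm
  have hε0 : 0 ≤ ε := by rw [hε]; positivity
  -- the lift
  obtain ⟨w, u, v, hw, hw1, hu, hv, hk⟩ := sign_lift
    (X := Z × Bool × X) (Y := Z × Y)
    (fun t i => q * (if t.2.1 then fp t.1 t.2.2 i else fw t.1 t.2.2 i))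
    (fun t i => e t.1 t.2 i / q) (Q := q) (L := L) hq0 hL (by
      rintro ⟨z, b, x⟩
      simp only [mul_pow, ← Finset.mul_sum]
      have : ∑ i, (if b = true then fp z x i else fw z x i) ^ 2 ≤ 1 := by
        cases b
        · simpa using hfw z x
        · simpa using hfp z x
      exact blv_s1 this) (by
      rintro ⟨z, y⟩
      simp only [div_pow, ← Finset.sum_div]
      rw [div_le_iff₀ (by positivity)]
      calc _ ≤ q ^ 4 := he z y
        _ = _ := by ring)
  have hΘ0 : 0 < Θ := by rw [hΘ]; positivity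
  have e1 : ∀ z x y, ∑ i, q * fp z x i * (e z y i / q) = P z x y := by
    intro z x y
    rw [hP]
    apply Finset.sum_congr rfl
    intro i _
    field_simp
  have e2 : ∀ z x y, ∑ i, q * fw z x i * (e z y i / q) = W z x y := by
    intro z x y
    rw [hW]
    apply Finset.sum_congr rfl
    intro i _
    field_simp
  -- the kernels
  set P' : Z → X → Y → ℝ := fun z x y =>
    Θ * kW w (fun o x => u o (z, true, x)) (fun o y => v o (z, y)) x y with hP'
  set W' : Z → X → Y → ℝ := fun z x y =>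
    Θ * kW w (fun o x => u o (z, false, x)) (fun o y => v o (z, y)) x y with hW'
  have hkP : ∀ z x y, |P z x y - P' z x y| ≤ ε := by
    intro z x y
    have := hk (z, true, x) (z, y)
    simp only [if_true] at this
    rw [e1] at this
    rw [hε]
    simp only [hP', hΘ]
    exact this
  have hkW : ∀ z x y, |W z x y - W' z x y| ≤ ε := by
    intro z x y
    have := hk (z, false, x) (z, y)
    simp only [Bool.false_eq_true, if_false] at this
    rw [e2] at this
    rw [hε]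
    simp only [hW', hΘ]
    exact this
  have hsq : ∀ s t : ℝ, |s - t| ≤ ε → t ^ 2 ≤ 2 * s ^ 2 + 1 / 8 := fun s t h => blv_s2 hε1 h
  have hexpo : ∀ {f g : Z → ℝ}, (∀ z, |f z - g z| ≤ ε) →
      Real.exp (l * ∑ z, γ z * g z ^ 2) ≤ 2 * Real.exp (2 * l * ∑ z, γ z * f z ^ 2) := by
    intro f g h
    have h4 : ∑ z, γ z * g z ^ 2 ≤ 2 * (∑ z, γ z * f z ^ 2) + 1 / 8 := by
      calc ∑ z, γ z * g z ^ 2 ≤ ∑ z, γ z * (2 * f z ^ 2 + 1 / 8) := by
            apply Finset.sum_le_sum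
            intro z _
            exact mul_le_mul_of_nonneg_left (hsq _ _ (h z)) (hγ z)
        _ = _ := by
            simp only [mul_add, Finset.sum_add_distrib, ← Finset.sum_mul, hγ1]
            rw [Finset.mul_sum]
            congr 1
            · apply Finset.sum_congr rfl
              intro z _
              ring
            · ring
    calc Real.exp (l * ∑ z, γ z * g z ^ 2) ≤
          Real.exp (1 / 8 + 2 * l * ∑ z, γ z * f z ^ 2) := by
          apply Real.exp_le_exp.mpr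
          exact blv_s3 hl hl1 h4
      _ = Real.exp (1 / 8) * Real.exp (2 * l * ∑ z, γ z * f z ^ 2) := Real.exp_add _ _
      _ ≤ _ := by
          apply mul_le_mul_of_nonneg_right _ (Real.exp_pos _).le
          have h5 : Real.exp (1 / 8 : ℝ) ≤ Real.exp (1 / 4) :=
            Real.exp_le_exp.mpr (by norm_num)
          have := exp_quarter
          linarith
  have h1' : em μ ν (fun x y => Real.exp (l * ∑ z, γ z * W' z x y ^ 2)) ≤ 2 * C0 := by
    refine le_trans (em_mono hμ hν fun x y => hexpo (f := fun z => W z x y)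
      (g := fun z => W' z x y) fun z => hkW z x y) ?_
    rw [em_smul]
    linarith
  have h2' : em μ ν (fun x y => Real.exp (l * ∑ z, γ z * P' z x y ^ 2)) ≤ 2 * C0 := by
    refine le_trans (em_mono hμ hν fun x y => hexpo (f := fun z => P z x y)
      (g := fun z => P' z x y) fun z => hkP z x y) ?_
    rw [em_smul]
    linarith
  have h3' : em μ ν (fun x y => ∑ z, γ z *
      (if (m : ℝ) < P' z x y ^ 2 then P' z x y ^ 2 else 0)) ≤ 2 * ext := by
    have h5 : em μ ν (fun x y => 2 * ∑ z, γ z *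
        (if (m : ℝ) / 4 < P z x y ^ 2 then P z x y ^ 2 else 0)) ≤ 2 * ext := by
      rw [em_smul]
      linarith
    refine le_trans (em_mono hμ hν fun x y => ?_) h5
    rw [Finset.mul_sum]
    apply Finset.sum_le_sum
    intro z _
    have h6 : (if (m : ℝ) < P' z x y ^ 2 then P' z x y ^ 2 else 0) ≤
        2 * (if (m : ℝ) / 4 < P z x y ^ 2 then P z x y ^ 2 else 0) :=
      blv_s4 hm' ((hkP z x y).trans hε1)
    calc γ z * _ ≤ γ z * (2 * (if (m : ℝ) / 4 < P z x y ^ 2 then P z x y ^ 2 else 0)) :=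
          mul_le_mul_of_nonneg_left h6 (hγ z)
      _ = _ := by ring
  have hmain := blm hμ hν hM hd hR hU1 hA hB hU hδ hγ hγ1 hw hw1
    (uw := fun z o x => u o (z, false, x)) (fun z k x => hu k _)
    (vw := fun z o y => v o (z, y)) (fun z k y => hv k _)
    (up := fun z o x => u o (z, true, x)) (fun z k x => hu k _)
    (vp := fun z o y => v o (z, y)) (fun z k y => hv k _)
    ha hm hK' hrt hrt2 hΘ0 hT hlam hlam1 hl hρ (W := W') (P := P') (fun z x y => rfl)
    (fun z x y => rfl) hθ hθl hlaml h1' h2' h3'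
  -- comparison
  have hcs : ∀ {f : Z → X → Fin n → ℝ}, (∀ z x, ∑ i, f z x i ^ 2 ≤ 1) → ∀ z x y,
      |∑ i, f z x i * e z y i| ≤ q ^ 2 := by
    intro f hf z x y
    have h4 := Finset.sum_mul_sq_le_sq_mul_sq Finset.univ (f z x) (e z y)
    have h5 : (∑ i, f z x i * e z y i) ^ 2 ≤ (q ^ 2) ^ 2 := by
      refine h4.trans ?_
      calc _ ≤ 1 * q ^ 4 := mul_le_mul (hf z x) (he z y)
            (Finset.sum_nonneg fun i _ => sq_nonneg _) (by norm_num)
        _ = _ := by ring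
    exact abs_le_of_sq_le_sq h5 (by positivity)
  have hPq : ∀ z x y, |P z x y| ≤ q ^ 2 := fun z x y => by rw [hP]; exact hcs hfp z x y
  have hWq : ∀ z x y, |W z x y| ≤ q ^ 2 := fun z x y => by rw [hW]; exact hcs hfw z x y
  have hq2 : 1 ≤ q ^ 2 := one_le_pow₀ hq
  have hcmp : |em μ ν (fun x y => (M x y - U) * ∑ z, γ z * (P z x y * W z x y)) -
      em μ ν (fun x y => (M x y - U) * ∑ z, γ z * (P' z x y * W' z x y))| ≤ 6 * ε * q ^ 2 := by
    have e3 : em μ ν (fun x y => (M x y - U) * ∑ z, γ z * (P z x y * W z x y)) -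
        em μ ν (fun x y => (M x y - U) * ∑ z, γ z * (P' z x y * W' z x y)) =
        em μ ν (fun x y => (M x y - U) * ∑ z, γ z * (P z x y * W z x y - P' z x y * W' z x y)) := by
      rw [sub_eq_add_neg, ← neg_one_mul, ← em_smul, ← em_add]
      congr 1
      funext x y
      simp only [mul_sub, Finset.sum_sub_distrib]
      ring
    rw [e3]
    have e4 : em μ ν (fun _ _ => 6 * ε * q ^ 2) = 6 * ε * q ^ 2 := em_const hμ hν _
    rw [← e4]
    apply em_abs_le hμ hν
    intro x y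
    rw [abs_mul]
    have h4 : |M x y - U| ≤ 2 := by
      calc |M x y - U| ≤ |M x y| + |U| := abs_sub _ _
        _ ≤ 2 := by linarith [hM x y]
    have h5 : |∑ z, γ z * (P z x y * W z x y - P' z x y * W' z x y)| ≤ 3 * ε * q ^ 2 := by
      calc _ ≤ ∑ z, |γ z * (P z x y * W z x y - P' z x y * W' z x y)| :=
            Finset.abs_sum_le_sum_abs _ _
        _ ≤ ∑ z, γ z * (3 * ε * q ^ 2) := by
            apply Finset.sum_le_sum
            intro z _
            rw [abs_mul, abs_of_nonneg (hγ z)]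
            apply mul_le_mul_of_nonneg_left _ (hγ z)
            have e5 : P z x y * W z x y - P' z x y * W' z x y =
                P z x y * (W z x y - W' z x y) + (P z x y - P' z x y) * W' z x y := by ring
            rw [e5]
            have h6 : |W' z x y| ≤ q ^ 2 + ε := by
              have h7 : |W' z x y| - |W z x y| ≤ |W' z x y - W z x y| :=
                abs_sub_abs_le_abs_sub _ _
              rw [abs_sub_comm] at h7
              linarith [hkW z x y, hWq z x y]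
            calc _ ≤ |P z x y * (W z x y - W' z x y)| + |(P z x y - P' z x y) * W' z x y| :=
                  abs_add_le _ _
              _ ≤ q ^ 2 * ε + ε * (q ^ 2 + ε) := by
                  rw [abs_mul, abs_mul]
                  apply add_le_add
                  · exact mul_le_mul (hPq z x y) (hkW z x y) (abs_nonneg _) (by positivity)
                  · exact mul_le_mul (hkP z x y) h6 (abs_nonneg _) hε0
              _ ≤ _ := blv_s5 hε0 hε1 hq2
        _ = _ := by rw [← Finset.sum_mul, hγ1, one_mul]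
    calc _ ≤ 2 * (3 * ε * q ^ 2) := mul_le_mul h4 h5 (abs_nonneg _) (by norm_num)
      _ = _ := by ring
  have hθ0 : 0 < θ := by rw [hθ]; positivity
  have hfin : |em μ ν (fun x y => (M x y - U) * ∑ z, γ z * (P z x y * W z x y))| ≤
      |em μ ν (fun x y => (M x y - U) * ∑ z, γ z * (P' z x y * W' z x y))| + 6 * ε * q ^ 2 := by
    have := abs_sub_abs_le_abs_sub
      (em μ ν (fun x y => (M x y - U) * ∑ z, γ z * (P z x y * W z x y)))
      (em μ ν (fun x y => (M x y - U) * ∑ z, γ z * (P' z x y * W' z x y)))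
    linarith
  have hfin2 := mul_le_mul_of_nonneg_left hfin hθ0.le
  rw [mul_add] at hfin2
  exact hfin2.trans (add_le_add hmain le_rfl)

end V

end Pool.Agent.LR2
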