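import Pool.Agent.Lib_helper83.LR.Scal

/-!
# Averages over independent labels
-/

set_option autoImplicit false
set_option linter.unusedSectionVars false
set_option linter.unusedVariables false

open Finset

namespace Pool.Agent.LR2

section L

variable {Z : Type} [Fintype Z]

theorem lab_gen (γ : Z → ℝ) {m : ℕ} (F : Fin m → Z → ℝ) :
    ∑ c : Fin m → Z, (∏ j, γ (c j)) * ∏ j, F j (c j) = ∏ j, ∑ z, γ z * F j z := by
  rw [Finset.prod_univ_sum]
  simp only [Fintype.piFinset_univ, Finset.prod_mul_distrib]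

theorem lab_prod (γ G : Z → ℝ) (m : ℕ) :
    ∑ c : Fin m → Z, (∏ j, γ (c j)) * ∏ j, G (c j) = (∑ z, γ z * G z) ^ m := by
  rw [lab_gen γ (fun _ => G), Finset.prod_const, Finset.card_univ, Fintype.card_fin]

theorem lab_sum (γ G η : Z → ℝ) (m : ℕ) :
    ∑ c : Fin m → Z, (∏ j, γ (c j)) * ((∏ j, G (c j)) * ∑ j, η (c j)) =
      m * (∑ z, γ z * (G z * η z)) * (∑ z, γ z * G z) ^ (m - 1) := by
  have h1 : ∀ c : Fin m → Z, (∏ j, γ (c j)) * ((∏ j, G (c j)) * ∑ j, η (c j)) =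
      ∑ i, (∏ j, γ (c j)) * ∏ j, (G (c j) * (if j = i then η (c j) else 1)) := by
    intro c
    rw [Finset.mul_sum, Finset.mul_sum]
    apply Finset.sum_congr rfl
    intro i _
    rw [Finset.prod_mul_distrib, Finset.prod_ite_eq' Finset.univ i]
    simp
  simp only [h1]
  rw [Finset.sum_comm]
  have h2 : ∀ i : Fin m, ∑ c : Fin m → Z, (∏ j, γ (c j)) *
      ∏ j, (G (c j) * (if j = i then η (c j) else 1)) =
      (∑ z, γ z * (G z * η z)) * (∑ z, γ z * G z) ^ (m - 1) := by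
    intro i
    rw [lab_gen γ (fun j z => G z * (if j = i then η z else 1))]
    rw [← Finset.mul_prod_erase Finset.univ _ (Finset.mem_univ i)]
    congr 1
    · simp
    · rw [Finset.prod_congr rfl (g := fun _ => ∑ z, γ z * G z)]
      · rw [Finset.prod_const, Finset.card_erase_of_mem (Finset.mem_univ i), Finset.card_univ,
          Fintype.card_fin]
      · intro j hj
        have : j ≠ i := Finset.ne_of_mem_erase hj
        simp [this]
  simp only [h2]
  rw [Finset.sum_const, Finset.card_univ, Fintype.card_fin, nsmul_eq_mul, mul_assoc]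

theorem lab_exp (γ G η : Z → ℝ) (m : ℕ) :
    ∑ c : Fin m → Z, (∏ j, γ (c j)) * ((∏ j, G (c j)) * Real.exp (∑ j, η (c j))) =
      (∑ z, γ z * (G z * Real.exp (η z))) ^ m := by
  rw [← lab_prod γ (fun z => G z * Real.exp (η z)) m]
  apply Finset.sum_congr rfl
  intro c _
  rw [Real.exp_sum, ← Finset.prod_mul_distrib]

theorem lab_one {γ : Z → ℝ} (h1 : ∑ z, γ z = 1) (m : ℕ) :
    ∑ c : Fin m → Z, ∏ j, γ (c j) = 1 := by
  have := lab_prod γ (fun _ => 1) m
  simpa [h1] using this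

end L

section P

variable {Z : Type} [Fintype Z]

/-- weights of the signed labels -/
noncomputable def g2 (γ : Z → ℝ) (z : Z × Bool) : ℝ := γ z.1 * hf z.2

theorem g2_nonneg {γ : Z → ℝ} (h : ∀ z, 0 ≤ γ z) (z : Z × Bool) : 0 ≤ g2 γ z :=
  mul_nonneg (h _) (hf_nonneg _)

theorem g2_sum {γ : Z → ℝ} (h1 : ∑ z, γ z = 1) : ∑ z, g2 γ z = 1 := by
  unfold g2
  rw [Fintype.sum_prod_type]
  simp only [← Finset.mul_sum, hf_sum, mul_one]
  exact h1

theorem g2_split (γ : Z → ℝ) (F : Z × Bool → ℝ) :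
    ∑ z, g2 γ z * F z = ∑ z, γ z * ((F (z, true) + F (z, false)) / 2) := by
  rw [Fintype.sum_prod_type]
  apply Finset.sum_congr rfl
  intro z _
  simp only [g2, hf, Fintype.sum_bool]
  ring

/-- the tilt factor of a signed label -/
noncomputable def GG (a : ℕ) (s : Z → ℝ) (z : Z × Bool) : ℝ := gg a (sg z.2 * s z.1)

theorem sgs_abs {s : Z → ℝ} (hs : ∀ z, |s z| ≤ 1 / 4) (z : Z × Bool) : |sg z.2 * s z.1| ≤ 1 / 4 := by
  rw [abs_mul, sg_abs, one_mul]
  exact hs _

theorem GG_nonneg {a : ℕ} {s : Z → ℝ} (hs : ∀ z, |s z| ≤ 1 / 4) (z : Z × Bool) : 0 ≤ GG a s z :=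
  gg_nonneg (sgs_abs hs z)

theorem GG_le {a : ℕ} {s : Z → ℝ} (hs : ∀ z, |s z| ≤ 1 / 4) (z : Z × Bool) : GG a s z ≤ 4 / 3 :=
  gg_le (sgs_abs hs z)

/-- `h0` is close to one -/
theorem h0_near {γ : Z → ℝ} (hγ : ∀ z, 0 ≤ γ z) (h1 : ∑ z, γ z = 1) {a : ℕ} {s : Z → ℝ}
    (hs : ∀ z, |s z| ≤ 1 / 4) :
    |∑ z, g2 γ z * GG a s z - 1| ≤ 6 * ∑ z, γ z * (a * s z) ^ 2 := by
  rw [g2_split]
  have e1 : (∑ z, γ z * ((GG a s (z, true) + GG a s (z, false)) / 2)) - 1 =
      ∑ z, γ z * (((gg a (s z) - 1 - a * s z) + (gg a (-s z) - 1 - a * (-s z))) / 2) := by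
    have e0 : (∑ z, γ z * ((GG a s (z, true) + GG a s (z, false)) / 2)) - 1 =
        (∑ z, γ z * ((GG a s (z, true) + GG a s (z, false)) / 2)) - ∑ z, γ z := by rw [h1]
    rw [e0, ← Finset.sum_sub_distrib]
    apply Finset.sum_congr rfl
    intro z _
    simp only [GG, sg]
    simp
    ring
  rw [e1, Finset.mul_sum]
  calc _ ≤ ∑ z, |γ z * (((gg a (s z) - 1 - a * s z) + (gg a (-s z) - 1 - a * (-s z))) / 2)| :=
        Finset.abs_sum_le_sum_abs _ _
    _ ≤ _ := by
        apply Finset.sum_le_sum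
        intro z _
        rw [abs_mul, abs_of_nonneg (hγ z)]
        have h2 := gg_two (a := a) (hs z)
        have h3 := gg_two (a := a) (s := -s z) (by rw [abs_neg]; exact hs z)
        have h4 : ((a : ℝ) * -s z) ^ 2 = (a * s z) ^ 2 := by ring
        rw [h4] at h3
        have h5 : |((gg a (s z) - 1 - a * s z) + (gg a (-s z) - 1 - a * (-s z))) / 2| ≤
            6 * (a * s z) ^ 2 := by
          rw [abs_div, abs_of_pos (by norm_num : (0 : ℝ) < 2), div_le_iff₀ (by norm_num)]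
          calc _ ≤ |gg a (s z) - 1 - a * s z| + |gg a (-s z) - 1 - a * (-s z)| := abs_add_le _ _
            _ ≤ _ := by linarith
        calc γ z * _ ≤ γ z * (6 * (a * s z) ^ 2) := mul_le_mul_of_nonneg_left h5 (hγ z)
          _ = _ := by ring

/-- the odd moment -/
theorem h1_near {γ : Z → ℝ} (hγ : ∀ z, 0 ≤ γ z) {a : ℕ} {s : Z → ℝ}
    (hs : ∀ z, |s z| ≤ 1 / 4) (Q : Z → ℝ) (R : Z → ℝ)
    (hR : ∀ z, (|Q z| * (a * s z) ^ 2 ≤ R z) ∨ (|Q z| * |a * s z| ≤ R z)) :
    |∑ z, g2 γ z * (GG a s z * (sg z.2 * Q z.1)) - ∑ z, γ z * (Q z * (a * s z))| ≤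
      6 * ∑ z, γ z * R z := by
  rw [g2_split]
  have e1 : (∑ z, γ z * ((GG a s (z, true) * (sg (z, true).2 * Q (z, true).1) +
      GG a s (z, false) * (sg (z, false).2 * Q (z, false).1)) / 2)) -
      ∑ z, γ z * (Q z * (a * s z)) =
      ∑ z, γ z * (Q z * (((gg a (s z) - 1 - a * s z) - (gg a (-s z) - 1 - a * (-s z))) / 2)) := by
    rw [← Finset.sum_sub_distrib]
    apply Finset.sum_congr rfl
    intro z _
    simp only [GG, sg]
    simp
    ring
  rw [e1, Finset.mul_sum]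
  calc _ ≤ ∑ z, |γ z * (Q z * (((gg a (s z) - 1 - a * s z) -
        (gg a (-s z) - 1 - a * (-s z))) / 2))| := Finset.abs_sum_le_sum_abs _ _
    _ ≤ _ := by
        apply Finset.sum_le_sum
        intro z _
        rw [abs_mul, abs_of_nonneg (hγ z), abs_mul]
        have hsn : |-s z| ≤ 1 / 4 := by rw [abs_neg]; exact hs z
        have h5 : |Q z| * |((gg a (s z) - 1 - a * s z) - (gg a (-s z) - 1 - a * (-s z))) / 2| ≤
            6 * R z := by
          have h6 : |((gg a (s z) - 1 - a * s z) - (gg a (-s z) - 1 - a * (-s z))) / 2| ≤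
              (|gg a (s z) - 1 - a * s z| + |gg a (-s z) - 1 - a * (-s z)|) / 2 := by
            rw [abs_div, abs_of_pos (by norm_num : (0 : ℝ) < 2)]
            have := abs_sub (gg a (s z) - 1 - a * s z) (gg a (-s z) - 1 - a * (-s z))
            linarith
          rcases hR z with h | h
          · have h2 := gg_two (a := a) (hs z)
            have h3 := gg_two (a := a) hsn
            have h4 : ((a : ℝ) * -s z) ^ 2 = (a * s z) ^ 2 := by ring
            rw [h4] at h3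
            calc _ ≤ |Q z| * (6 * (a * s z) ^ 2) :=
                  mul_le_mul_of_nonneg_left (by linarith) (abs_nonneg _)
              _ ≤ _ := by linarith
          · have h2 := gg_one (a := a) (hs z)
            have h3 := gg_one (a := a) hsn
            have h4 : |(a : ℝ) * -s z| = |a * s z| := by
              rw [mul_neg, abs_neg]
            rw [h4] at h3
            calc _ ≤ |Q z| * (6 * |a * s z|) :=
                  mul_le_mul_of_nonneg_left (by linarith) (abs_nonneg _)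
              _ ≤ _ := by linarith
        calc γ z * _ ≤ γ z * (6 * R z) := mul_le_mul_of_nonneg_left h5 (hγ z)
          _ = _ := by ring

/-- crude bound of a mean of nonnegative terms -/
theorem gmean_le {γ : Z → ℝ} (hγ : ∀ z, 0 ≤ γ z) {a : ℕ} {s : Z → ℝ}
    (hs : ∀ z, |s z| ≤ 1 / 4) {η : Z × Bool → ℝ} {Q : Z → ℝ} (h : ∀ z, |η z| ≤ Q z.1) :
    |∑ z, g2 γ z * (GG a s z * η z)| ≤ 4 / 3 * ∑ z, γ z * Q z := by
  calc _ ≤ ∑ z, |g2 γ z * (GG a s z * η z)| := Finset.abs_sum_le_sum_abs _ _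
    _ ≤ ∑ z, g2 γ z * (4 / 3 * Q z.1) := by
        apply Finset.sum_le_sum
        intro z _
        rw [abs_mul, abs_of_nonneg (g2_nonneg hγ z), abs_mul, abs_of_nonneg (GG_nonneg hs z)]
        exact mul_le_mul_of_nonneg_left (mul_le_mul (GG_le hs z) (h z) (abs_nonneg _)
          (by norm_num)) (g2_nonneg hγ z)
    _ = _ := by
        rw [g2_split, Finset.mul_sum]
        apply Finset.sum_congr rfl
        intro z _
        ring

/-- the exponential moment of one label -/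
theorem hexp_le {γ : Z → ℝ} (hγ : ∀ z, 0 ≤ γ z) (h1 : ∑ z, γ z = 1) {a : ℕ} {s : Z → ℝ}
    (hs : ∀ z, |s z| ≤ 1 / 4) (Q : Z → ℝ) (hQ : ∀ z, |Q z| ≤ 1) :
    ∑ z, g2 γ z * (GG a s z * Real.exp (sg z.2 * Q z.1)) ≤
      1 + (10 * ∑ z, γ z * (a * s z) ^ 2 + 5 * ∑ z, γ z * Q z ^ 2) := by
  have hsQ : ∀ z : Z × Bool, |sg z.2 * Q z.1| ≤ 1 := by
    intro z
    rw [abs_mul, sg_abs, one_mul]
    exact hQ _
  have s1 : ∑ z, g2 γ z * (GG a s z * Real.exp (sg z.2 * Q z.1)) ≤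
      ∑ z, g2 γ z * (GG a s z * (1 + sg z.2 * Q z.1 + (sg z.2 * Q z.1) ^ 2)) := by
    apply Finset.sum_le_sum
    intro z _
    exact mul_le_mul_of_nonneg_left (mul_le_mul_of_nonneg_left (exp_quad (hsQ z))
      (GG_nonneg hs z)) (g2_nonneg hγ z)
  have s2 : ∑ z, g2 γ z * (GG a s z * (1 + sg z.2 * Q z.1 + (sg z.2 * Q z.1) ^ 2)) =
      ∑ z, g2 γ z * GG a s z + ∑ z, g2 γ z * (GG a s z * (sg z.2 * Q z.1)) +
        ∑ z, g2 γ z * (GG a s z * (sg z.2 * Q z.1) ^ 2) := by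
    rw [← Finset.sum_add_distrib, ← Finset.sum_add_distrib]
    apply Finset.sum_congr rfl
    intro z _
    ring
  have a1 := (abs_le.mp (h0_near hγ h1 (a := a) hs)).2
  have a2 := (abs_le.mp (h1_near hγ (a := a) hs Q (fun z => |Q z| * |a * s z|)
    (fun z => Or.inr le_rfl))).2
  have a3 := (abs_le.mp (gmean_le hγ (a := a) hs (η := fun z => (sg z.2 * Q z.1) ^ 2)
    (Q := fun z => Q z ^ 2) (fun z => by
      rw [abs_of_nonneg (sq_nonneg _), mul_pow]
      have : sg z.2 ^ 2 = 1 := by rw [sq]; exact sg_sq _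
      rw [this, one_mul]))).2
  have a4 : ∑ z, γ z * (Q z * (a * s z)) ≤ ∑ z, γ z * (|Q z| * |a * s z|) := by
    apply Finset.sum_le_sum
    intro z _
    apply mul_le_mul_of_nonneg_left _ (hγ z)
    rw [← abs_mul]
    exact le_abs_self _
  have a5 : 7 * ∑ z, γ z * (|Q z| * |a * s z|) ≤
      7 / 2 * ∑ z, γ z * (a * s z) ^ 2 + 7 / 2 * ∑ z, γ z * Q z ^ 2 := by
    rw [Finset.mul_sum, Finset.mul_sum, Finset.mul_sum, ← Finset.sum_add_distrib]
    apply Finset.sum_le_sum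
    intro z _
    have h2 : |Q z| * |a * s z| ≤ ((a * s z) ^ 2 + Q z ^ 2) / 2 := by
      have h3 := sq_nonneg (|Q z| - |a * s z|)
      have h4 : |Q z| ^ 2 = Q z ^ 2 := sq_abs _
      have h5 : |(a : ℝ) * s z| ^ 2 = (a * s z) ^ 2 := sq_abs _
      nlinarith
    have h3 := mul_le_mul_of_nonneg_left h2 (hγ z)
    linarith
  have n1 : 0 ≤ ∑ z, γ z * (a * s z) ^ 2 :=
    Finset.sum_nonneg fun z _ => mul_nonneg (hγ z) (sq_nonneg _)
  have n2 : 0 ≤ ∑ z, γ z * Q z ^ 2 :=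
    Finset.sum_nonneg fun z _ => mul_nonneg (hγ z) (sq_nonneg _)
  rw [s2] at s1
  linarith

end P

end Pool.Agent.LR2
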