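import Pool.Agent.Lib_helper83.LR.Lab

/-!
# Pointwise estimates for the label averages
-/

set_option autoImplicit false
set_option linter.unusedSectionVars false
set_option linter.unusedVariables false

open Finset

namespace Pool.Agent.LR2

section Pt

variable {Z : Type} [Fintype Z]

/-- data at a point: weights, tilts, revealed values -/
structure PtD (γ : Z → ℝ) (a m : ℕ) (s P : Z → ℝ) (rt τ pb pe : ℝ) : Prop where
  nn : ∀ z, 0 ≤ γ z
  one : ∑ z, γ z = 1
  hs : ∀ z, |s z| ≤ 1 / 4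
  mpos : 0 < m
  rtpos : 0 < rt
  rtsq : rt ^ 2 = m
  hτ : τ = m * ∑ z, γ z * (a * s z) ^ 2
  hpb : pb = ∑ z, γ z * P z ^ 2
  hpe : pe = ∑ z, γ z * (if (m : ℝ) < P z ^ 2 then P z ^ 2 else 0)

variable {γ : Z → ℝ} {a m : ℕ} {s P : Z → ℝ} {rt τ pb pe : ℝ}

theorem PtD.τ0 (h : PtD γ a m s P rt τ pb pe) : 0 ≤ τ := by
  rw [h.hτ]
  exact mul_nonneg (by positivity) (Finset.sum_nonneg fun z _ => mul_nonneg (h.nn z) (sq_nonneg _))

theorem PtD.pb0 (h : PtD γ a m s P rt τ pb pe) : 0 ≤ pb := by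
  rw [h.hpb]
  exact Finset.sum_nonneg fun z _ => mul_nonneg (h.nn z) (sq_nonneg _)

theorem PtD.pe0 (h : PtD γ a m s P rt τ pb pe) : 0 ≤ pe := by
  rw [h.hpe]
  refine Finset.sum_nonneg fun z _ => mul_nonneg (h.nn z) ?_
  split_ifs
  · exact sq_nonneg _
  · exact le_rfl

theorem PtD.pe_le (h : PtD γ a m s P rt τ pb pe) : pe ≤ pb := by
  rw [h.hpe, h.hpb]
  apply Finset.sum_le_sum
  intro z _
  apply mul_le_mul_of_nonneg_left _ (h.nn z)
  split_ifs
  · exact le_rfl
  · exact sq_nonneg _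

/-- the mean weight of a label -/
noncomputable def h0 (γ : Z → ℝ) (a : ℕ) (s : Z → ℝ) : ℝ := ∑ z, g2 γ z * GG a s z

theorem PtD.pow (h : PtD γ a m s P rt τ pb pe) {k : ℕ} (hk : k ≤ m) :
    |h0 γ a s ^ k - 1| ≤ 6 * τ * Real.exp (6 * τ) ∧ |h0 γ a s ^ k| ≤ Real.exp (6 * τ) := by
  have hm : (0 : ℝ) < m := by exact_mod_cast h.mpos
  have h1 := h0_near h.nn h.one (a := a) h.hs
  have h2 : 6 * ∑ z, γ z * (a * s z) ^ 2 = 6 * τ / m := by
    rw [h.hτ, mul_div_assoc, mul_div_cancel_left₀ _ hm.ne']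
  rw [h2] at h1
  exact pow_near h.mpos hk h1 (by have := h.τ0; linarith)

/-- the signal -/
theorem PtD.signal (h : PtD γ a m s P rt τ pb pe) {ρ θ : ℝ} (hρ : 0 < ρ) (hθ : 0 < θ) :
    |∑ c : Fin m → Z × Bool, (∏ j, g2 γ (c j)) * ((∏ j, GG a s (c j)) *
        ∑ j, sg (c j).2 * (P (c j).1 / rt)) - rt * ∑ z, γ z * (P z * (a * s z))| ≤
      Real.exp (6 * τ) * (6 * τ + 3 * (pe / ρ + ρ * τ)) +
      Real.exp (6 * τ) * (3 * τ * (θ * pb + τ / θ)) := by
  have hm : (0 : ℝ) < m := by exact_mod_cast h.mpos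
  have hrt := h.rtpos
  rw [lab_sum (g2 γ) (GG a s) (fun z => sg z.2 * (P z.1 / rt)) m]
  set H : ℝ := ∑ z, g2 γ z * (GG a s z * (sg z.2 * P z.1)) with hH
  set S : ℝ := ∑ z, γ z * (P z * (a * s z)) with hS
  have e1 : ∑ z, g2 γ z * (GG a s z * (sg z.2 * (P z.1 / rt))) = H / rt := by
    rw [hH, Finset.sum_div]
    apply Finset.sum_congr rfl
    intro z _
    ring
  rw [e1]
  have e2 : (m : ℝ) * (H / rt) * (∑ z, g2 γ z * GG a s z) ^ (m - 1) =
      rt * H * h0 γ a s ^ (m - 1) := by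
    rw [← h.rtsq]
    unfold h0
    field_simp
  rw [e2]
  obtain ⟨p1, p2⟩ := h.pow (k := m - 1) (Nat.sub_le m 1)
  -- the remainder
  set R : Z → ℝ := fun z => if (m : ℝ) < P z ^ 2 then |P z| * |a * s z| else |P z| * (a * s z) ^ 2
    with hR
  have h1 : |H - S| ≤ 6 * ∑ z, γ z * R z := by
    apply h1_near h.nn h.hs P R
    intro z
    simp only [hR]
    split_ifs with hc
    · exact Or.inr le_rfl
    · exact Or.inl le_rfl
  have h2 : rt * (6 * ∑ z, γ z * R z) ≤ 6 * τ + 3 * (pe / ρ + ρ * τ) := by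
    have e3 : 6 * τ + 3 * (pe / ρ + ρ * τ) = ∑ z, γ z * (6 * (m * (a * s z) ^ 2) +
        3 * ((if (m : ℝ) < P z ^ 2 then P z ^ 2 else 0) / ρ + ρ * (m * (a * s z) ^ 2))) := by
      rw [h.hτ, h.hpe]
      simp only [Finset.mul_sum, Finset.sum_div, ← Finset.sum_add_distrib]
      apply Finset.sum_congr rfl
      intro z _
      ring
    rw [e3, Finset.mul_sum, Finset.mul_sum]
    apply Finset.sum_le_sum
    intro z _
    have e4 : rt * (6 * (γ z * R z)) = γ z * (6 * (rt * R z)) := by ring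
    rw [e4]
    apply mul_le_mul_of_nonneg_left _ (h.nn z)
    simp only [hR]
    have q0 : 0 ≤ (m : ℝ) * (a * s z) ^ 2 := by positivity
    split_ifs with hc
    · have q2 : |P z| * (rt * |a * s z|) ≤ (P z ^ 2 / ρ + ρ * (m * (a * s z) ^ 2)) / 2 := by
        have q3 : (m : ℝ) * (a * s z) ^ 2 = (rt * |a * s z|) ^ 2 := by
          rw [mul_pow rt, h.rtsq, sq_abs]
        rw [q3]
        set p := |P z| with hp
        set q := rt * |a * s z| with hq
        have q4 : P z ^ 2 = p ^ 2 := by rw [hp, sq_abs]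
        rw [q4]
        have q5 : 0 ≤ (p - ρ * q) ^ 2 / ρ := by positivity
        have q6 : (p - ρ * q) ^ 2 / ρ = p ^ 2 / ρ + ρ * q ^ 2 - 2 * (p * q) := by
          field_simp
          ring
        linarith
      nlinarith
    · push Not at hc
      have q1 : |P z| ≤ rt := by
        rw [← abs_of_pos hrt]
        exact sq_le_sq.mp (by rw [h.rtsq]; exact hc)
      have q2 : rt * (|P z| * (a * s z) ^ 2) ≤ m * (a * s z) ^ 2 := by
        rw [← h.rtsq]
        have q3 : 0 ≤ ((a : ℝ) * s z) ^ 2 := sq_nonneg _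
        calc rt * (|P z| * (a * s z) ^ 2) ≤ rt * (rt * (a * s z) ^ 2) := by gcongr
          _ = _ := by ring
      have q3 : 0 ≤ ρ * ((m : ℝ) * (a * s z) ^ 2) := by positivity
      simp only [zero_div, zero_add]
      nlinarith
  have h3 : rt * |S| ≤ (θ * pb + τ / θ) / 2 := by
    have e3 : (θ * pb + τ / θ) / 2 = ∑ z, γ z * ((θ * P z ^ 2 + m * (a * s z) ^ 2 / θ) / 2) := by
      rw [h.hτ, h.hpb]
      simp only [Finset.mul_sum, Finset.sum_div, ← Finset.sum_add_distrib]
      apply Finset.sum_congr rfl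
      intro z _
      ring
    rw [e3]
    calc rt * |S| ≤ rt * ∑ z, |γ z * (P z * (a * s z))| :=
          mul_le_mul_of_nonneg_left (Finset.abs_sum_le_sum_abs _ _) hrt.le
      _ = ∑ z, γ z * (|P z| * (rt * |a * s z|)) := by
          rw [Finset.mul_sum]
          apply Finset.sum_congr rfl
          intro z _
          rw [abs_mul, abs_of_nonneg (h.nn z), abs_mul]
          ring
      _ ≤ _ := by
          apply Finset.sum_le_sum
          intro z _
          apply mul_le_mul_of_nonneg_left _ (h.nn z)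
          have q3 : (m : ℝ) * (a * s z) ^ 2 = (rt * |a * s z|) ^ 2 := by
            rw [mul_pow rt, h.rtsq, sq_abs]
          rw [q3]
          set p := |P z| with hp
          set q := rt * |a * s z| with hq
          have q4 : P z ^ 2 = p ^ 2 := by rw [hp, sq_abs]
          rw [q4]
          have q5 : 0 ≤ (θ * p - q) ^ 2 / θ := by positivity
          have q6 : (θ * p - q) ^ 2 / θ = θ * p ^ 2 + q ^ 2 / θ - 2 * (p * q) := by
            field_simp
            ring
          linarith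
  have e5 : rt * H * h0 γ a s ^ (m - 1) - rt * S =
      rt * (H - S) * h0 γ a s ^ (m - 1) + rt * S * (h0 γ a s ^ (m - 1) - 1) := by ring
  rw [e5]
  have hE : 0 < Real.exp (6 * τ) := Real.exp_pos _
  have hτ0 := h.τ0
  calc _ ≤ |rt * (H - S) * h0 γ a s ^ (m - 1)| + |rt * S * (h0 γ a s ^ (m - 1) - 1)| :=
        abs_add_le _ _
    _ = (rt * |H - S|) * |h0 γ a s ^ (m - 1)| + (rt * |S|) * |h0 γ a s ^ (m - 1) - 1| := by
        rw [abs_mul, abs_mul, abs_mul, abs_mul, abs_of_pos hrt]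
    _ ≤ (6 * τ + 3 * (pe / ρ + ρ * τ)) * Real.exp (6 * τ) +
        ((θ * pb + τ / θ) / 2) * (6 * τ * Real.exp (6 * τ)) := by
        apply add_le_add
        · apply mul_le_mul _ p2 (abs_nonneg _)
          · have hpe := h.pe0
            positivity
          · exact (mul_le_mul_of_nonneg_left h1 hrt.le).trans h2
        · apply mul_le_mul h3 p1 (abs_nonneg _)
          have hpb := h.pb0
          positivity
    _ = _ := by ring

/-- the tail of the revealed form under the tilted law -/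
theorem PtD.tail (h : PtD γ a m s P rt τ pb pe) {T lam : ℝ} (hl : 0 < lam) (hl1 : lam ≤ 1) :
    ∑ c : Fin m → Z × Bool, (∏ j, g2 γ (c j)) * ((∏ j, GG a s (c j)) *
        tfn T (∑ j, sg (c j).2 * (P (c j).1 / rt))) ≤
      4 / lam * Real.exp (-(lam * T / 2)) * Real.exp (10 * τ + 5 * (lam ^ 2 * pb)) +
      8 / 3 * pe * Real.exp (6 * τ) := by
  have hm : (0 : ℝ) < m := by exact_mod_cast h.mpos
  have hrt := h.rtpos
  set Pn : Z → ℝ := fun z => if (m : ℝ) < P z ^ 2 then 0 else P z / rt with hPn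
  set Pe : Z → ℝ := fun z => if (m : ℝ) < P z ^ 2 then P z / rt else 0 with hPe
  have hsplit : ∀ z, P z / rt = Pn z + Pe z := by
    intro z
    simp only [hPn, hPe]
    split_ifs <;> ring
  have hPn1 : ∀ z, |Pn z| ≤ 1 := by
    intro z
    simp only [hPn]
    split_ifs with hc
    · simp
    · push Not at hc
      rw [abs_div, abs_of_pos hrt, div_le_one hrt]
      rw [← abs_of_pos hrt]
      exact sq_le_sq.mp (by rw [h.rtsq]; exact hc)
  have hΓ : ∀ c : Fin m → Z × Bool, 0 ≤ ∏ j, g2 γ (c j) := fun c =>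
    Finset.prod_nonneg fun j _ => g2_nonneg h.nn _
  have hG : ∀ c : Fin m → Z × Bool, 0 ≤ ∏ j, GG a s (c j) := fun c =>
    Finset.prod_nonneg fun j _ => GG_nonneg h.hs _
  -- pointwise
  have p1 : ∀ c : Fin m → Z × Bool, tfn T (∑ j, sg (c j).2 * (P (c j).1 / rt)) ≤
      2 / lam * Real.exp (-(lam * T / 2)) * (Real.exp (∑ j, sg (c j).2 * (lam * Pn (c j).1)) +
        Real.exp (∑ j, sg (c j).2 * (-lam * Pn (c j).1))) + 2 * ∑ j, |Pe (c j).1| := by
    intro c
    have e1 : ∑ j, sg (c j).2 * (P (c j).1 / rt) =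
        ∑ j, sg (c j).2 * Pn (c j).1 + ∑ j, sg (c j).2 * Pe (c j).1 := by
      rw [← Finset.sum_add_distrib]
      apply Finset.sum_congr rfl
      intro j _
      rw [hsplit]
      ring
    rw [e1]
    refine (tfn_add T _ _).trans (add_le_add ?_ ?_)
    · refine (tfn_exp (T := T) hl).trans (le_of_eq ?_)
      congr 2
      · congr 1
        rw [Finset.mul_sum]
        apply Finset.sum_congr rfl
        intro j _
        ring
      · congr 1
        rw [Finset.mul_sum, ← Finset.sum_neg_distrib]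
        apply Finset.sum_congr rfl
        intro j _
        ring
    · apply mul_le_mul_of_nonneg_left _ (by norm_num)
      refine (Finset.abs_sum_le_sum_abs _ _).trans (le_of_eq ?_)
      apply Finset.sum_congr rfl
      intro j _
      rw [abs_mul, sg_abs, one_mul]
  -- sum
  have s1 : ∑ c : Fin m → Z × Bool, (∏ j, g2 γ (c j)) * ((∏ j, GG a s (c j)) *
        tfn T (∑ j, sg (c j).2 * (P (c j).1 / rt))) ≤
      ∑ c : Fin m → Z × Bool, (∏ j, g2 γ (c j)) * ((∏ j, GG a s (c j)) *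
        (2 / lam * Real.exp (-(lam * T / 2)) * (Real.exp (∑ j, sg (c j).2 * (lam * Pn (c j).1)) +
        Real.exp (∑ j, sg (c j).2 * (-lam * Pn (c j).1))) + 2 * ∑ j, |Pe (c j).1|)) := by
    apply Finset.sum_le_sum
    intro c _
    exact mul_le_mul_of_nonneg_left (mul_le_mul_of_nonneg_left (p1 c) (hG c)) (hΓ c)
  have s2 : ∑ c : Fin m → Z × Bool, (∏ j, g2 γ (c j)) * ((∏ j, GG a s (c j)) *
        (2 / lam * Real.exp (-(lam * T / 2)) * (Real.exp (∑ j, sg (c j).2 * (lam * Pn (c j).1)) +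
        Real.exp (∑ j, sg (c j).2 * (-lam * Pn (c j).1))) + 2 * ∑ j, |Pe (c j).1|)) =
      2 / lam * Real.exp (-(lam * T / 2)) *
      (∑ c : Fin m → Z × Bool, (∏ j, g2 γ (c j)) * ((∏ j, GG a s (c j)) *
        Real.exp (∑ j, sg (c j).2 * (lam * Pn (c j).1))) +
       ∑ c : Fin m → Z × Bool, (∏ j, g2 γ (c j)) * ((∏ j, GG a s (c j)) *
        Real.exp (∑ j, sg (c j).2 * (-lam * Pn (c j).1)))) +
      2 * ∑ c : Fin m → Z × Bool, (∏ j, g2 γ (c j)) * ((∏ j, GG a s (c j)) *
        ∑ j, |Pe (c j).1|) := by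
    rw [← Finset.sum_add_distrib, Finset.mul_sum, Finset.mul_sum, ← Finset.sum_add_distrib]
    apply Finset.sum_congr rfl
    intro c _
    ring
  have k1 : ∀ l : ℝ, |l| ≤ 1 → l ^ 2 = lam ^ 2 → ∑ c : Fin m → Z × Bool, (∏ j, g2 γ (c j)) *
      ((∏ j, GG a s (c j)) * Real.exp (∑ j, sg (c j).2 * (l * Pn (c j).1))) ≤
      Real.exp (10 * τ + 5 * (lam ^ 2 * pb)) := by
    intro l hl2 hl3
    rw [lab_exp (g2 γ) (GG a s) (fun z => sg z.2 * (l * Pn z.1)) m]
    have q1 := hexp_le h.nn h.one (a := a) h.hs (fun z => l * Pn z) (fun z => by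
      rw [abs_mul]
      exact mul_le_one₀ hl2 (abs_nonneg _) (hPn1 z))
    have q2 : ∑ z, γ z * (l * Pn z) ^ 2 ≤ lam ^ 2 * pb / m := by
      rw [h.hpb, Finset.mul_sum, Finset.sum_div]
      apply Finset.sum_le_sum
      intro z _
      have q3 : Pn z ^ 2 ≤ P z ^ 2 / m := by
        simp only [hPn]
        split_ifs
        · have := sq_nonneg (P z)
          simp only [ne_eq, OfNat.ofNat_ne_zero, not_false_eq_true, zero_pow]
          positivity
        · rw [div_pow, h.rtsq]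
      calc γ z * (l * Pn z) ^ 2 = γ z * (lam ^ 2 * Pn z ^ 2) := by rw [mul_pow, hl3]
        _ ≤ γ z * (lam ^ 2 * (P z ^ 2 / m)) := by
            apply mul_le_mul_of_nonneg_left _ (h.nn z)
            exact mul_le_mul_of_nonneg_left q3 (sq_nonneg _)
        _ = _ := by ring
    have q4 : ∑ z, γ z * (a * s z) ^ 2 = τ / m := by
      rw [h.hτ, mul_div_cancel_left₀ _ hm.ne']
    rw [q4] at q1
    have q5 : 0 ≤ ∑ z, g2 γ z * (GG a s z * Real.exp (sg z.2 * (l * Pn z.1))) :=
      Finset.sum_nonneg fun z _ => mul_nonneg (g2_nonneg h.nn z)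
        (mul_nonneg (GG_nonneg h.hs z) (Real.exp_pos _).le)
    have q6 : ∑ z, g2 γ z * (GG a s z * Real.exp (sg z.2 * (l * Pn z.1))) ≤
        Real.exp ((10 * τ + 5 * (lam ^ 2 * pb)) / m) := by
      have q7 := Real.add_one_le_exp ((10 * τ + 5 * (lam ^ 2 * pb)) / m)
      have q8 : (10 * τ + 5 * (lam ^ 2 * pb)) / m = 10 * (τ / m) + 5 * (lam ^ 2 * pb / m) := by
        ring
      linarith
    calc _ ≤ Real.exp ((10 * τ + 5 * (lam ^ 2 * pb)) / m) ^ m := pow_le_pow_left₀ q5 q6 m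
      _ = _ := by
          rw [← Real.exp_nat_mul]
          congr 1
          field_simp
  have k2 : ∑ c : Fin m → Z × Bool, (∏ j, g2 γ (c j)) * ((∏ j, GG a s (c j)) *
      ∑ j, |Pe (c j).1|) ≤ 4 / 3 * pe * Real.exp (6 * τ) := by
    rw [lab_sum (g2 γ) (GG a s) (fun z => |Pe z.1|) m]
    obtain ⟨_, r2⟩ := h.pow (k := m - 1) (Nat.sub_le m 1)
    have r3 : (∑ z, g2 γ z * GG a s z) ^ (m - 1) ≤ Real.exp (6 * τ) := (le_abs_self _).trans r2
    have r4 := (abs_le.mp (gmean_le h.nn (a := a) h.hs (η := fun z => |Pe z.1|)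
      (Q := fun z => |Pe z|) (fun z => by rw [abs_abs]))).2
    have r5 : (m : ℝ) * ∑ z, g2 γ z * (GG a s z * |Pe z.1|) ≤ 4 / 3 * pe := by
      have r6 : (m : ℝ) * ∑ z, γ z * |Pe z| ≤ pe := by
        rw [h.hpe, Finset.mul_sum]
        apply Finset.sum_le_sum
        intro z _
        have r7 : (m : ℝ) * |Pe z| ≤ (if (m : ℝ) < P z ^ 2 then P z ^ 2 else 0) := by
          simp only [hPe]
          split_ifs with hc
          · rw [abs_div, abs_of_pos hrt, ← h.rtsq]
            have r8 : rt ≤ |P z| := by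
              rw [← abs_of_pos hrt]
              exact sq_le_sq.mp (by rw [h.rtsq]; exact hc.le)
            have r9 : rt ^ 2 * (|P z| / rt) = rt * |P z| := by field_simp
            rw [r9, ← sq_abs (P z), sq]
            exact mul_le_mul_of_nonneg_right r8 (abs_nonneg _)
          · simp
        calc (m : ℝ) * (γ z * |Pe z|) = γ z * (m * |Pe z|) := by ring
          _ ≤ _ := mul_le_mul_of_nonneg_left r7 (h.nn z)
      have r10 := mul_le_mul_of_nonneg_left r4 hm.le
      linarith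
    have r11 : 0 ≤ (∑ z, g2 γ z * GG a s z) ^ (m - 1) := by
      apply pow_nonneg
      exact Finset.sum_nonneg fun z _ => mul_nonneg (g2_nonneg h.nn z) (GG_nonneg h.hs z)
    have hpe := h.pe0
    calc _ ≤ (4 / 3 * pe) * (∑ z, g2 γ z * GG a s z) ^ (m - 1) :=
          mul_le_mul_of_nonneg_right r5 r11
      _ ≤ _ := mul_le_mul_of_nonneg_left r3 (by positivity)
  have k3 := k1 lam (by rw [abs_of_pos hl]; exact hl1) rfl
  have k4 := k1 (-lam) (by rw [abs_neg, abs_of_pos hl]; exact hl1) (by ring)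
  rw [s2] at s1
  refine s1.trans ?_
  have k5 : 0 ≤ 2 / lam * Real.exp (-(lam * T / 2)) := by positivity
  have k6 := mul_le_mul_of_nonneg_left (add_le_add k3 k4) k5
  have k7 : 2 / lam * Real.exp (-(lam * T / 2)) * (Real.exp (10 * τ + 5 * (lam ^ 2 * pb)) +
      Real.exp (10 * τ + 5 * (lam ^ 2 * pb))) =
      4 / lam * Real.exp (-(lam * T / 2)) * Real.exp (10 * τ + 5 * (lam ^ 2 * pb)) := by ring
  rw [k7] at k6
  linarith

end Pt

end Pool.Agent.LR2
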