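import Pool.Agent.Lib_helper59.LR2.BLP
import Pool.Agent.Lib_helper59.LR2.BLW2

/-!
# The clipped tilt: scalar estimates
-/

set_option autoImplicit false
set_option linter.unusedSectionVars false
set_option linter.unusedVariables false

open Finset

namespace Pool.Agent.LR2

/-- the clipped tilt -/
noncomputable def gg (a : ℕ) (s : ℝ) : ℝ := (1 + s) ^ a * (1 - s ^ 2) ^ (a ^ 2)

theorem exp_one_le : Real.exp 1 ≤ 2.7183 := Real.exp_one_lt_d9.le.trans (by norm_num)

theorem exp_quarter : Real.exp (1 / 4) ≤ 4 / 3 := by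
  have h1 : 1 - (1 / 4 : ℝ) ≤ Real.exp (-(1 / 4)) := by
    have := Real.add_one_le_exp (-(1 / 4 : ℝ))
    linarith
  have h2 : Real.exp (1 / 4) * Real.exp (-(1 / 4)) = 1 := by rw [← Real.exp_add]; simp
  have h3 := Real.exp_pos (1 / 4)
  nlinarith

theorem gg_nonneg {a : ℕ} {s : ℝ} (hs : |s| ≤ 1 / 4) : 0 ≤ gg a s := by
  have h := abs_le.mp hs
  unfold gg
  apply mul_nonneg <;> apply pow_nonneg
  · linarith
  · nlinarith

theorem gg_le {a : ℕ} {s : ℝ} (hs : |s| ≤ 1 / 4) : gg a s ≤ 4 / 3 := by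
  have h := abs_le.mp hs
  have h1 : (1 + s) ^ a ≤ Real.exp (a * s) := by
    rw [Real.exp_nat_mul]
    apply pow_le_pow_left₀ (by linarith)
    have := Real.add_one_le_exp s
    linarith
  have h2 : (1 - s ^ 2) ^ (a ^ 2) ≤ Real.exp ((a ^ 2 : ℕ) * (-s ^ 2)) := by
    rw [Real.exp_nat_mul]
    apply pow_le_pow_left₀ (by nlinarith)
    have := Real.add_one_le_exp (-s ^ 2)
    linarith
  unfold gg
  calc (1 + s) ^ a * (1 - s ^ 2) ^ (a ^ 2) ≤ Real.exp (a * s) * Real.exp ((a ^ 2 : ℕ) * (-s ^ 2)) :=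
        mul_le_mul h1 h2 (pow_nonneg (by nlinarith) _) (Real.exp_pos _).le
    _ = Real.exp (a * s - (a * s) ^ 2) := by
        rw [← Real.exp_add]
        congr 1
        push_cast
        ring
    _ ≤ Real.exp (1 / 4) := by
        apply Real.exp_le_exp.mpr
        nlinarith [sq_nonneg ((a : ℝ) * s - 1 / 2)]
    _ ≤ 4 / 3 := exp_quarter

theorem gg_small {a : ℕ} {s : ℝ} (hs : |s| ≤ 1 / 4) (ht : |a * s| ≤ 1) :
    |gg a s - 1 - a * s| ≤ 6 * (a * s) ^ 2 := by
  have h := abs_le.mp hs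
  set t : ℝ := a * s with htdef
  have h1 : |(1 + s) ^ a - 1 - t| ≤ t ^ 2 * Real.exp |t| := by
    have := wt_bound a (4 * s)
    have e1 : 4 * s / 4 = s := by ring
    have e2 : (a : ℝ) * (4 * s) / 4 = t := by rw [htdef]; ring
    rwa [e1, e2] at this
  have hexp : Real.exp |t| ≤ 2.7183 := (Real.exp_le_exp.mpr ht).trans exp_one_le
  have h2 : (1 + s) ^ a ≤ 2.7183 := by
    have h3 : (1 + s) ^ a ≤ Real.exp (a * s) := by
      rw [Real.exp_nat_mul]
      apply pow_le_pow_left₀ (by linarith)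
      have := Real.add_one_le_exp s
      linarith
    refine h3.trans ((Real.exp_le_exp.mpr (le_abs_self _)).trans hexp)
  have h2' : 0 ≤ (1 + s) ^ a := pow_nonneg (by linarith) _
  have h3 : 1 - t ^ 2 ≤ (1 - s ^ 2) ^ (a ^ 2) := by
    have h4 := one_add_mul_le_pow (show (-2 : ℝ) ≤ -s ^ 2 by nlinarith) (a ^ 2)
    have e1 : (1 : ℝ) + -s ^ 2 = 1 - s ^ 2 := by ring
    rw [e1] at h4
    calc 1 - t ^ 2 = 1 + ((a ^ 2 : ℕ) : ℝ) * (-s ^ 2) := by
          rw [htdef]
          push_cast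
          ring
      _ ≤ _ := h4
  have h3' : (1 - s ^ 2) ^ (a ^ 2) ≤ 1 := pow_le_one₀ (by nlinarith) (by nlinarith)
  have e1 : gg a s - 1 - t = ((1 + s) ^ a - 1 - t) - (1 + s) ^ a * (1 - (1 - s ^ 2) ^ (a ^ 2)) := by
    unfold gg
    ring
  have h5 : |(1 + s) ^ a * (1 - (1 - s ^ 2) ^ (a ^ 2))| ≤ 2.7183 * t ^ 2 := by
    rw [abs_mul, abs_of_nonneg h2', abs_of_nonneg (by linarith)]
    exact mul_le_mul h2 (by linarith) (by linarith) (by norm_num)
  have h6 : t ^ 2 * Real.exp |t| ≤ t ^ 2 * 2.7183 := mul_le_mul_of_nonneg_left hexp (sq_nonneg t)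
  rw [e1]
  calc _ ≤ |(1 + s) ^ a - 1 - t| + |(1 + s) ^ a * (1 - (1 - s ^ 2) ^ (a ^ 2))| := abs_sub _ _
    _ ≤ t ^ 2 * 2.7183 + 2.7183 * t ^ 2 := add_le_add (h1.trans h6) h5
    _ ≤ _ := by nlinarith [sq_nonneg t]

theorem gg_large {a : ℕ} {s : ℝ} (hs : |s| ≤ 1 / 4) (ht : 1 ≤ |a * s|) :
    |gg a s - 1 - a * s| ≤ 2 * |a * s| := by
  have h1 := gg_nonneg (a := a) hs
  have h2 := gg_le (a := a) hs
  have h3 : |gg a s - 1| ≤ 1 := by
    rw [abs_le]
    constructor <;> linarith
  calc |gg a s - 1 - a * s| ≤ |gg a s - 1| + |a * s| := abs_sub _ _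
    _ ≤ _ := by linarith

/-- the second order bound -/
theorem gg_two {a : ℕ} {s : ℝ} (hs : |s| ≤ 1 / 4) :
    |gg a s - 1 - a * s| ≤ 6 * (a * s) ^ 2 := by
  rcases le_total |(a : ℝ) * s| 1 with h | h
  · exact gg_small hs h
  · refine (gg_large hs h).trans ?_
    rw [← sq_abs]
    nlinarith

/-- the first order bound -/
theorem gg_one {a : ℕ} {s : ℝ} (hs : |s| ≤ 1 / 4) :
    |gg a s - 1 - a * s| ≤ 6 * |a * s| := by
  rcases le_total |(a : ℝ) * s| 1 with h | h
  · refine (gg_small hs h).trans ?_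
    rw [← sq_abs]
    nlinarith [abs_nonneg ((a : ℝ) * s)]
  · refine (gg_large hs h).trans ?_
    nlinarith [abs_nonneg ((a : ℝ) * s)]

theorem pow_sub_one (h : ℝ) (k : ℕ) : |h ^ k - 1| ≤ (1 + |h - 1|) ^ k - 1 := by
  induction k with
  | zero => simp
  | succ k ih =>
    have h1 : h ^ (k + 1) - 1 = h * (h ^ k - 1) + (h - 1) := by ring
    have h2 : (1 + |h - 1|) ^ (k + 1) - 1 =
        (1 + |h - 1|) * ((1 + |h - 1|) ^ k - 1) + |h - 1| := by ring
    rw [h1, h2]
    have h3 : |h| ≤ 1 + |h - 1| := by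
      calc |h| = |1 + (h - 1)| := by congr 1; ring
        _ ≤ |(1 : ℝ)| + |h - 1| := abs_add_le _ _
        _ = _ := by rw [abs_one]
    calc _ ≤ |h * (h ^ k - 1)| + |h - 1| := abs_add_le _ _
      _ ≤ _ := by
          rw [abs_mul]
          gcongr

theorem exp_sub_one_le {z : ℝ} (hz : 0 ≤ z) : Real.exp z - 1 ≤ z * Real.exp z := by
  have h1 : 1 - z ≤ Real.exp (-z) := by
    have := Real.add_one_le_exp (-z)
    linarith
  have h2 : 0 < Real.exp z := Real.exp_pos z
  have h3 : Real.exp (-z) * Real.exp z = 1 := by rw [← Real.exp_add]; simp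
  nlinarith

/-- powers of a number close to `1` -/
theorem pow_near {h x : ℝ} {k m : ℕ} (hm : 0 < m) (hk : k ≤ m) (hx : |h - 1| ≤ x / m) (hx0 : 0 ≤ x) :
    |h ^ k - 1| ≤ x * Real.exp x ∧ |h ^ k| ≤ Real.exp x := by
  have hm' : (0 : ℝ) < m := by exact_mod_cast hm
  have h1 : (1 + |h - 1|) ^ k ≤ Real.exp x := by
    calc (1 + |h - 1|) ^ k ≤ (1 + x / m) ^ k := by gcongr
      _ ≤ (1 + x / m) ^ m := by
          apply pow_le_pow_right₀ _ hk
          have : 0 ≤ x / m := by positivity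
          linarith
      _ ≤ Real.exp (x / m) ^ m := by
          apply pow_le_pow_left₀ (by positivity)
          have := Real.add_one_le_exp (x / m)
          linarith
      _ = Real.exp x := by
          rw [← Real.exp_nat_mul]
          congr 1
          field_simp
  have h2 := pow_sub_one h k
  constructor
  · have := exp_sub_one_le hx0
    linarith
  · calc |h ^ k| = |(h ^ k - 1) + 1| := by congr 1; ring
      _ ≤ |h ^ k - 1| + |(1 : ℝ)| := abs_add_le _ _
      _ ≤ _ := by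
          rw [abs_one]
          linarith

theorem exp_quad {z : ℝ} (hz : |z| ≤ 1) : Real.exp z ≤ 1 + z + z ^ 2 := by
  have := Real.abs_exp_sub_one_sub_id_le hz
  have h2 := (abs_le.mp this).2
  linarith

/-- the tail function `2 (|b| - T / 2)⁺` -/
noncomputable def tfn (T b : ℝ) : ℝ := max 0 (2 * |b| - T)

theorem tfn_tail {T : ℝ} (hT : 0 < T) : Tail (tfn T) T := by
  refine ⟨hT, ?_, ?_, ?_⟩
  · refine ⟨convex_univ, ?_⟩
    intro a _ b _ s t hs ht hst
    simp only [smul_eq_mul, tfn]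
    have h1 : |s * a + t * b| ≤ s * |a| + t * |b| := by
      calc |s * a + t * b| ≤ |s * a| + |t * b| := abs_add_le _ _
        _ = s * |a| + t * |b| := by rw [abs_mul, abs_mul, abs_of_nonneg hs, abs_of_nonneg ht]
    have h2 : 0 ≤ max 0 (2 * |a| - T) := le_max_left _ _
    have h3 : 0 ≤ max 0 (2 * |b| - T) := le_max_left _ _
    have h4 : 2 * |a| - T ≤ max 0 (2 * |a| - T) := le_max_right _ _
    have h5 : 2 * |b| - T ≤ max 0 (2 * |b| - T) := le_max_right _ _
    apply max_le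
    · positivity
    · have h6 := mul_le_mul_of_nonneg_left h4 hs
      have h7 := mul_le_mul_of_nonneg_left h5 ht
      have h8 : T = s * T + t * T := by rw [← add_mul, hst, one_mul]
      nlinarith
  · intro b
    exact le_max_left _ _
  · intro b hb
    unfold tfn
    refine le_trans ?_ (le_max_right _ _)
    linarith

theorem tfn_exp {T lam b : ℝ} (hl : 0 < lam) :
    tfn T b ≤ 2 / lam * Real.exp (-(lam * T / 2)) * (Real.exp (lam * b) + Real.exp (-(lam * b))) := by
  unfold tfn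
  apply max_le
  · positivity
  · have h1 : lam * (|b| - T / 2) ≤ Real.exp (lam * (|b| - T / 2)) := by
      have := Real.add_one_le_exp (lam * (|b| - T / 2))
      linarith
    have h2 : Real.exp (lam * (|b| - T / 2)) = Real.exp (-(lam * T / 2)) * Real.exp (lam * |b|) := by
      rw [← Real.exp_add]
      congr 1
      ring
    have h3 : Real.exp (lam * |b|) ≤ Real.exp (lam * b) + Real.exp (-(lam * b)) := by
      rcases abs_choice b with h | h
      · rw [h]
        have := Real.exp_pos (-(lam * b))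
        linarith
      · rw [h]
        have := Real.exp_pos (lam * b)
        have e : lam * -b = -(lam * b) := by ring
        rw [e]
        linarith
    have h4 : 2 * |b| - T = 2 / lam * (lam * (|b| - T / 2)) := by
      field_simp
    rw [h4, mul_assoc]
    apply mul_le_mul_of_nonneg_left _ (by positivity)
    calc lam * (|b| - T / 2) ≤ _ := h1
      _ = _ := h2
      _ ≤ _ := mul_le_mul_of_nonneg_left h3 (Real.exp_pos _).le

theorem tfn_add (T b c : ℝ) : tfn T (b + c) ≤ tfn T b + 2 * |c| := by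
  unfold tfn
  apply max_le
  · have h1 : 0 ≤ max 0 (2 * |b| - T) := le_max_left _ _
    have h2 := abs_nonneg c
    linarith
  · have h1 : 2 * |b| - T ≤ max 0 (2 * |b| - T) := le_max_right _ _
    have h2 := abs_add_le b c
    linarith

end Pool.Agent.LR2
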